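import Pool.Agent.PO.Defs
import Pool.Agent.Lib_helper19.Collapse

/-!
# Statements for the characterisation of the reflection conjecture

`Q1 ↔ (some super-tally coNP set has no p-optimal proof system) ∨ (TFNP has no complete problem)`.
-/

namespace Pool.Agent.PO

open Pool.Agent.H19

/-- The reached state of the guarded universal machine. -/
def finalSt (z : T) : T :=
  (gStep^[4 * z.right.right.len] (T.node (T.unary (uSpace z))
    (T.node (T.node (iRun z.left) T.leaf) (T.node z.right.left T.leaf)))).right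

/-- Clocked simulation with a halting flag: on `node c (node x b)` the result is `leaf` if the run
of the program coded by `c` on `x` does not halt within the budget, and `node leaf y` if it halts
with result `y`. -/
def simulF (z : T) : T := tif (finalSt z).left (T.node T.leaf (finalSt z).right.left) T.leaf

/-- Specification of `simulF`. -/
def SIMF_stmt : Prop :=
  PolyTime simulF ∧
  (∀ (c : Code) (x y : T) (t b : ℕ), Eval c x y t → t ≤ b →
    simulF (T.node c.enc (T.node x (T.unary b))) = T.node T.leaf y) ∧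
  (∀ (c : Code) (x y B : T) (t : ℕ), Eval c x y t →
    simulF (T.node c.enc (T.node x B)) = T.leaf ∨
    simulF (T.node c.enc (T.node x B)) = T.node T.leaf y)

/-- Programs with a parameter, with clocks. -/
def PARAM_stmt : Prop :=
  ∀ f : T → T, PolyTime f → ∃ (pc : T → Code) (pk : T → ℕ),
    PolyTime (fun q => T.node (pc q).enc (T.unary (pk q))) ∧
    ∀ q, HaltsWithin (pc q) (pk q) ∧
      ∀ x, Accepts (pc q) (pk q) x ↔ f (T.node q x) ≠ T.leaf

/-- A function on trees given by its Gödel number after a fixed prefix is `PolyN`. -/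
def GN_stmt : Prop := ∀ (g : T → T) (C : ℕ), C ≠ 0 → PolyTime g →
  PolyN (fun x => T.gn (g x) C)

/-- NP relations are definable by `Σ^b_1` formulas, by means of a formalisation of proofs. -/
def DEF_stmt : Prop :=
  ∀ (μ : Fm) (P : Code → ℕ → Fm), IsUniversal μ → IsFormalisation μ P →
  ∀ F : T → T → Prop, PolyDec (fun z => F z.left z.right) →
    (∀ X y, F X y → y.size ≤ X.size) →
    ∃ (α : Fm) (nx : T → ℕ), α.isSigma = true ∧ α.fvBelow 1 ∧ PolyN nx ∧
      ∀ (X : T) (v : ℕ → ℕ), α.sat stdN (scons (nx X) v) ↔ ∃ y, F X y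

/-- NP relations as instances of the universal formula. -/
def UNIV_stmt : Prop :=
  ∀ (μ : Fm) (P : Code → ℕ → Fm), IsUniversal μ → IsFormalisation μ P →
  ∀ F : T → T → Prop, PolyDec (fun z => F z.left z.right) →
    (∀ X y, F X y → y.size ≤ X.size) →
    ∃ (e : ℕ) (nx nz : T → ℕ), PolyN nx ∧ PolyN nz ∧
      ∀ X, μ.sat stdN (vec3 e (nx X) (nz X)) ↔ ∃ y, F X y

/-- First half of the converse: if the conjecture fails, all sets in coNP have p-optimal proof
systems. -/
def CON_stmt : Prop :=
  ∀ (μ : Fm) (P : Code → ℕ → Fm), IsUniversal μ → IsFormalisation μ P →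
  ¬ ReflectionConjecture μ P → ∀ A : Set T, A.Nonempty → InCoNP A → HasPOptimal A

/-- Second half of the converse: if the conjecture fails, TFNP has a complete problem. -/
def TFNP_stmt : Prop :=
  ∀ (μ : Fm) (P : Code → ℕ → Fm), IsUniversal μ → IsFormalisation μ P →
  ¬ ReflectionConjecture μ P → ∃ (f : T → T) (k : ℕ), TFNPComplete f k

/-- The main direction. -/
def FWD_stmt : Prop :=
  ∀ (μ : Fm) (P : Code → ℕ → Fm), IsUniversal μ → IsFormalisation μ P →
  (∀ A : Set T, A.Nonempty → SuperTally A → InCoNP A → HasPOptimal A) →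
  (∃ (f : T → T) (k : ℕ), TFNPComplete f k) → ¬ ReflectionConjecture μ P

/-- The characterisation. -/
def MAIN_stmt : Prop :=
  ∀ (μ : Fm) (P : Code → ℕ → Fm), IsUniversal μ → IsFormalisation μ P →
  (ReflectionConjecture μ P ↔
    (∃ A : Set T, A.Nonempty ∧ SuperTally A ∧ InCoNP A ∧ ¬ HasPOptimal A) ∨
    ¬ ∃ (f : T → T) (k : ℕ), TFNPComplete f k)

theorem main_of (h1 : CON_stmt) (h2 : TFNP_stmt) (h3 : FWD_stmt) : MAIN_stmt := by
  intro μ P hμ hP
  constructor
  · intro h
    by_contra hc
    push Not at hc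
    obtain ⟨hc1, hc2⟩ := hc
    exact h3 μ P hμ hP hc1 hc2 h
  · rintro (⟨A, hA, _, hA2, hA3⟩ | h)
    · by_contra hc
      exact hA3 (h1 μ P hμ hP hc A hA hA2)
    · by_contra hc
      exact h (h2 μ P hμ hP hc)

end Pool.Agent.PO
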