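import Pool.Agent.PO.Stmts

/-!
# Clocked simulation with a halting flag
-/

namespace Pool.Agent.PO

open Pool.Agent.H19

namespace SimF

theorem ite_nodes {p : Prop} [Decidable p] {x y : T} (hx : ∃ a b, x = T.node a b)
    (hy : ∃ a b, y = T.node a b) : ∃ a b, (if p then x else y) = T.node a b := by
  by_cases h : p
  · rw [if_pos h]; exact hx
  · rw [if_neg h]; exact hy

theorem tif_nodes {c x y : T} (hx : ∃ a b, x = T.node a b)
    (hy : ∃ a b, y = T.node a b) : ∃ a b, tif c x y = T.node a b := by
  unfold tif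
  exact ite_nodes hx hy

theorem uStep_node (s : T) : ∃ a b, uStep s = T.node a b :=
  ite_nodes ⟨_, _, rfl⟩ (ite_nodes ⟨_, _, rfl⟩ (ite_nodes ⟨_, _, rfl⟩ (ite_nodes ⟨_, _, rfl⟩
    (ite_nodes ⟨_, _, rfl⟩ (ite_nodes ⟨_, _, rfl⟩ (ite_nodes ⟨_, _, rfl⟩ (ite_nodes ⟨_, _, rfl⟩
      (ite_nodes ⟨_, _, rfl⟩ (ite_nodes (tif_nodes ⟨_, _, rfl⟩ ⟨_, _, rfl⟩) ⟨_, _, rfl⟩)))))))))

theorem iter_node (j : ℕ) (a b : T) : ∃ K V, uStep^[j] (T.node a b) = T.node K V := by
  cases j with
  | zero => exact ⟨a, b, rfl⟩
  | succ j =>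
    rw [Function.iterate_succ_apply']
    exact uStep_node _

theorem gStep_some (U s : T) (i : ℕ) : ∃ j ≤ i, gStep^[i] (T.node U s) =
    T.node U (uStep^[j] s) := by
  induction i with
  | zero => exact ⟨0, le_rfl, rfl⟩
  | succ i ih =>
    obtain ⟨j, hj, h⟩ := ih
    rw [Function.iterate_succ_apply', h]
    by_cases hs : (uStep (uStep^[j] s)).size ≤ U.len
    · refine ⟨j + 1, by omega, ?_⟩
      rw [Function.iterate_succ_apply']
      simp [gStep, hs]
    · refine ⟨j, by omega, ?_⟩
      simp [gStep, hs]

theorem finalSt_polyTime : PolyTime finalSt := by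
  have i := PolyTime.id
  have hb : PolyNat (fun z : T => z.right.right.len) := PolyNat.len i.right.right
  have hsp : PolyNat uSpace :=
    (PolyNat.const 2).add ((hb.add (PolyNat.const 1)).mul
      (((PolyNat.size i.left).add (PolyNat.size i.right.left)).add hb |>.add (PolyNat.const 20)))
  have hs : PolyTime (fun z => T.node (T.unary (uSpace z))
      (T.node (T.node (iRun z.left) T.leaf) (T.node z.right.left T.leaf))) :=
    hsp.node ((((PolyTime.const _).node i.left).node PolyTime.leaf).node
      (i.right.left.node PolyTime.leaf))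
  have hN : PolyTime (fun z : T => T.unary (4 * z.right.right.len)) := (PolyNat.const 4).mul hb
  have := PolyTime.iterate gStep_polyTime hN hs (by
    obtain ⟨k, hk⟩ := PolyTime.size_bound hsp
    obtain ⟨m, hm⟩ : PolyB (fun n => 2 * (n + 2) ^ k + 1) :=
      ((PolyB.const 2).mul ⟨k, fun n => le_rfl⟩).add (PolyB.const 1)
    refine ⟨m, fun z j _ => le_trans ?_ (hm z.size)⟩
    have h0 : (T.node (T.unary (uSpace z)) (T.node (T.node (iRun z.left) T.leaf)
        (T.node z.right.left T.leaf))).right.size ≤ (T.node (T.unary (uSpace z))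
        (T.node (T.node (iRun z.left) T.leaf) (T.node z.right.left T.leaf))).left.len := by
      simp only [T.right_node, T.left_node, T.len_unary, uSpace, T.size, iRun, T.unary]
      nlinarith
    obtain ⟨h1, h2⟩ := gStep_size j _ h0
    rw [ite_self] at h1
    have hk' := hk z
    have h3 : ∀ y : T, y.size ≤ y.left.size + y.right.size + 1 := by
      intro y; cases y <;> simp [T.size]
    have h4 := h3 (gStep^[j] (T.node (T.unary (uSpace z)) (T.node (T.node (iRun z.left) T.leaf)
        (T.node z.right.left T.leaf))))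
    rw [h1] at h4
    simp only [T.left_node, T.len_unary, T.size_unary] at h2 h4 hk'
    beta_reduce
    omega)
  refine this.right.congr fun z => ?_
  simp only [finalSt, T.len_unary]

theorem simulF_polyTime : PolyTime simulF :=
  finalSt_polyTime.left.tif (PolyTime.leaf.node finalSt_polyTime.right.left) PolyTime.leaf

theorem final_halt {c : Code} {x y : T} {t : ℕ} (h : Eval c x y t) {b : ℕ} (hb : t ≤ b) :
    finalSt (T.node c.enc (T.node x (T.unary b))) = T.node T.leaf (T.node y T.leaf) := by
  have h1 := h.uRun (c.enc.size + x.size + b + 20) (by omega) T.leaf T.leaf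
    (uSpace (T.node c.enc (T.node x (T.unary b)))) (by
      simp only [uSpace, T.right_node, T.left_node, T.len_unary, T.size]
      have : (t + 1) * (c.enc.size + x.size + b + 20) ≤ (b + 1) * (c.enc.size + x.size + b + 20) :=
        Nat.mul_le_mul_right _ (by omega)
      omega)
  obtain ⟨m, hm, hrun⟩ := h1
  have h2 : URun (uSpace (T.node c.enc (T.node x (T.unary b))))
      (T.node T.leaf (T.node y T.leaf)) (4 * b - m) (T.node T.leaf (T.node y T.leaf)) := by
    refine ⟨uStep_final _ _, fun i _ => ?_⟩
    rw [uStep_final]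
    have := hrun.2 m le_rfl
    rwa [hrun.1] at this
  have h3 := gStep_iterate (hrun.trans h2)
  rw [show 4 * b - m + m = 4 * b by omega] at h3
  simp only [finalSt, T.right_node, T.left_node, T.len_unary]
  rw [h3]
  simp

theorem final_any {c : Code} {x y : T} {t : ℕ} (h : Eval c x y t) (B : T)
    (hl : (finalSt (T.node c.enc (T.node x B))).left = T.leaf) :
    (finalSt (T.node c.enc (T.node x B))).right.left = y := by
  obtain ⟨m, -, hrun⟩ := h.uRun (c.enc.size + x.size + t + 20) le_rfl T.leaf T.leaf _ le_rfl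
  have hm := hrun.1
  simp only [finalSt, T.right_node, T.left_node] at hl ⊢
  obtain ⟨j, -, hj⟩ := gStep_some (T.unary (uSpace (T.node c.enc (T.node x B))))
    (T.node (T.node (iRun c.enc) T.leaf) (T.node x T.leaf)) (4 * B.len)
  rw [hj] at hl ⊢
  obtain ⟨K, V, hKV⟩ := iter_node j (T.node (iRun c.enc) T.leaf) (T.node x T.leaf)
  rw [T.right_node, hKV] at hl ⊢
  rw [T.left_node] at hl
  subst hl
  rw [T.right_node]
  rcases le_total j m with hjm | hjm
  · obtain ⟨i, rfl⟩ := Nat.exists_eq_add_of_le hjm
    rw [Nat.add_comm, Function.iterate_add_apply, hKV, uStep_final] at hm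
    injection hm with _ hV
    rw [hV, T.left_node]
  · obtain ⟨i, rfl⟩ := Nat.exists_eq_add_of_le hjm
    rw [Nat.add_comm, Function.iterate_add_apply, hm, uStep_final] at hKV
    injection hKV with _ hV
    rw [← hV, T.left_node]

end SimF

theorem SIMF_thm : SIMF_stmt := by
  refine ⟨SimF.simulF_polyTime, fun c x y t b h hb => ?_, fun c x y B t h => ?_⟩
  · unfold simulF
    rw [SimF.final_halt h hb]
    simp
  · unfold simulF
    by_cases hl : (finalSt (T.node c.enc (T.node x B))).left = T.leaf
    · right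
      rw [hl, tif_leaf, SimF.final_any h B hl]
    · left
      simp [tif, hl]

end Pool.Agent.PO
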