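import Pool.Agent.PO.XPDefs
import Pool.Agent.PO.Stmts
import Pool.Agent.Lib_helper19.Classes
import Pool.Agent.Lib_helper19.Reflection
import Pool.Agent.Lib_helper19.Universal
import Pool.Agent.Lib_helper19.Tally

/-!
# If sets in `Π^p_2` have p-optimal proof systems, totality up to size `n` is decidable in time
`n ^ f(c)`
-/

namespace Pool.Agent.PO

open Pool.Agent.H19

/-- The instances `node c (node n pad)` such that every `y` of size at most `n` has a solution
accepted within the budget `pad`. -/
def XBt : Set T := {X | ∀ y : T, y.size ≤ X.right.left.len → ∃ z : T, z.size ≤ y.size ∧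
  (simulF (T.node X.left (T.node (T.node y z) X.right.right))).right ≠ T.leaf}

/-- The instances `node c (node x pad)` such that every candidate for a solution of `x` is
rejected within the budget `pad`. -/
def XCt : Set T := {Y | ∀ z : T, z.size ≤ Y.right.left.size →
  simulF (T.node Y.left (T.node (T.node Y.right.left z) Y.right.right)) = T.node T.leaf T.leaf}

theorem PolyDec.lt' {f g : T → ℕ} (hf : PolyNat f) (hg : PolyNat g) :
    PolyDec (fun x => f x < g x) :=
  (PolyDec.le (hf.add (PolyNat.const 1)) hg).congr fun _ => Nat.succ_le_iff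

theorem XBt_pi2 (hs : PolyTime simulF) : InPi2 XBt := by
  have i := PolyTime.id
  have hdec : PolyDec (fun w : T => w.left.right.left.len < w.right.left.size ∨
      (w.right.right.size ≤ w.right.left.size ∧ (simulF (T.node w.left.left
        (T.node (T.node w.right.left w.right.right) w.left.right.right))).right ≠ T.leaf)) :=
    (PolyDec.lt' (PolyNat.len i.left.right.left) (PolyNat.size i.right.left)).or
      ((PolyDec.le (PolyNat.size i.right.right) (PolyNat.size i.right.left)).and
        (PolyDec.ne_leaf (hs.comp (i.left.left.node ((i.right.left.node i.right.right).node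
          i.left.right.right))).right))
  obtain ⟨f, hf, hf2⟩ := hdec
  refine ⟨f, 1, hf, fun X => ⟨fun hX y hy => ?_, fun hX y hy => ?_⟩⟩
  · by_cases h : X.right.left.len < y.size
    · refine ⟨T.leaf, by simp only [T.size]; omega, (hf2 _).1 (Or.inl h)⟩
    · obtain ⟨z, hz, hz2⟩ := hX y (not_lt.1 h)
      exact ⟨z, hz.trans hy, (hf2 _).1 (Or.inr ⟨hz, hz2⟩)⟩
  · have h1 : X.right.left.len < X.size := by
      have h2 := T.len_lt_size X.right.left
      have h3 := T.size_left_le X.right
      have h4 := T.size_right_le X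
      omega
    obtain ⟨z, _, hz2⟩ := hX y (by rw [pow_one]; omega)
    rcases (hf2 _).2 hz2 with h2 | ⟨h2, h3⟩
    · simp only [T.left_node, T.right_node] at h2
      omega
    · exact ⟨z, h2, h3⟩

theorem XCt_pi2 (hs : PolyTime simulF) : InPi2 XCt := by
  have i := PolyTime.id
  have hdec : PolyDec (fun w : T => w.left.right.left.size < w.right.left.size ∨
      simulF (T.node w.left.left (T.node (T.node w.left.right.left w.right.left)
        w.left.right.right)) = T.node T.leaf T.leaf) :=
    (PolyDec.lt' (PolyNat.size i.left.right.left) (PolyNat.size i.right.left)).or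
      (PolyDec.eq (hs.comp (i.left.left.node ((i.left.right.left.node i.right.left).node
          i.left.right.right))) (PolyTime.const _))
  obtain ⟨f, hf, hf2⟩ := hdec
  refine ⟨f, 1, hf, fun Y => ⟨fun hY y hy => ?_, fun hY y hy => ?_⟩⟩
  · refine ⟨T.leaf, Nat.one_le_pow _ _ (by omega), (hf2 _).1 ?_⟩
    by_cases h : Y.right.left.size < y.size
    · exact Or.inl h
    · exact Or.inr (hY y (not_lt.1 h))
  · have h1 : Y.right.left.size ≤ Y.size := by
      have h3 := T.size_left_le Y.right
      have h4 := T.size_right_le Y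
      omega
    obtain ⟨z, _, hz2⟩ := hY y (by rw [pow_one]; omega)
    rcases (hf2 _).2 hz2 with h2 | h2
    · simp only [T.left_node, T.right_node] at h2
      omega
    · exact h2

theorem XBt_nonempty : XBt.Nonempty := by
  refine ⟨T.leaf, fun y hy => ?_⟩
  have := T.size_pos y
  simp at hy
  omega

theorem XCt_nonempty (h2 : ∀ (c : Code) (x y : T) (t b : ℕ), Eval c x y t → t ≤ b →
    simulF (T.node c.enc (T.node x (T.unary b))) = T.node T.leaf y) : XCt.Nonempty :=
  ⟨T.node Code.leaf.enc (T.node T.leaf (T.unary 1)), fun _ _ =>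
    h2 Code.leaf _ _ 1 1 (Eval.leaf _) le_rfl⟩

section
variable (h h' : T → T)

/-- The candidate examined at stage `w.left`, `w = node s X`. -/
def cand (w : T) : T := (treeOf (bl w.left.len)).left

/-- The candidate is a program that produces a proof of totality up to `n`. -/
def YesAt (w : T) : Prop :=
  (cand w).left = T.leaf ∧
    simulF (T.node (cand w).right (T.node w.right.right w.left)) ≠ T.leaf ∧
    (h (simulF (T.node (cand w).right (T.node w.right.right w.left))).right).left =
      w.right.left ∧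
    (h (simulF (T.node (cand w).right (T.node w.right.right w.left))).right).right.left =
      w.right.right

/-- The candidate is a proof that some `x` of size at most `n` has no solution. -/
def NoAt (w : T) : Prop :=
  (cand w).left ≠ T.leaf ∧ (h' (cand w).right).left = w.right.left ∧
    (h' (cand w).right).right.left.size ≤ w.right.right.len

end

theorem cand_polyTime : PolyTime cand :=
  (treeOf_polyTime.comp (PolyNat.len PolyTime.id.left).toN).left

theorem yesAt_polyDec (hs : PolyTime simulF) {h : T → T} (hh : PolyTime h) :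
    PolyDec (YesAt h) := by
  have i := PolyTime.id
  have hr : PolyTime (fun w : T =>
      simulF (T.node (cand w).right (T.node w.right.right w.left))) :=
    hs.comp (cand_polyTime.right.node (i.right.right.node i.left))
  exact (PolyDec.eq_leaf cand_polyTime.left).and ((PolyDec.ne_leaf hr).and
    ((PolyDec.eq (hh.comp hr.right).left i.right.left).and
      (PolyDec.eq (hh.comp hr.right).right.left i.right.right)))

theorem noAt_polyDec {h' : T → T} (hh : PolyTime h') : PolyDec (NoAt h') := by
  have i := PolyTime.id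
  exact (PolyDec.ne_leaf cand_polyTime.left).and
    ((PolyDec.eq (hh.comp cand_polyTime.right).left i.right.left).and
      (PolyDec.le (PolyNat.size (hh.comp cand_polyTime.right).right.left)
        (PolyNat.len i.right.right)))

theorem cand_spec (q : T) (b : ℕ) (X : T) :
    cand (T.node (T.unary (2 ^ tc q * (2 * b + 1))) X) = q := by
  have h1 : 2 ^ tc q * (2 * b + 1) ≠ 0 := by positivity
  have h2 : bl (2 ^ tc q * (2 * b + 1)) ≠ T.leaf := by rw [bl_pos h1]; simp
  unfold cand
  rw [T.left_node, T.len_unary, treeOf, dif_neg h2, sp_bl, if_neg (by simp), T.left_node,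
    T.left_node, T.len_unary, treeOf_tc]

open Classical in
/-- The stages of the algorithm. -/
noncomputable def stepOf (h h' : T → T) (σ : T) : T :=
  if YesAt h σ.right then T.node T.leaf (T.node T.leaf T.leaf)
    else if NoAt h' σ.right then T.node T.leaf T.leaf
    else T.node (T.node T.leaf T.leaf) (T.node (T.node T.leaf σ.right.left) σ.right.right)

theorem stepOf_yes {h h' : T → T} {r w : T} (hw : YesAt h w) :
    stepOf h h' (T.node r w) = T.node T.leaf (T.node T.leaf T.leaf) := by
  unfold stepOf
  rw [if_pos (show YesAt h (T.node r w).right from hw)]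

theorem stepOf_no {h h' : T → T} {r w : T} (hw : ¬ YesAt h w) (hw' : NoAt h' w) :
    stepOf h h' (T.node r w) = T.node T.leaf T.leaf := by
  unfold stepOf
  rw [if_neg (show ¬ YesAt h (T.node r w).right from hw),
    if_pos (show NoAt h' (T.node r w).right from hw')]

theorem stepOf_else {h h' : T → T} {r w : T} (hw : ¬ YesAt h w) (hw' : ¬ NoAt h' w) :
    stepOf h h' (T.node r w) =
      T.node (T.node T.leaf T.leaf) (T.node (T.node T.leaf w.left) w.right) := by
  unfold stepOf
  rw [if_neg (show ¬ YesAt h (T.node r w).right from hw),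
    if_neg (show ¬ NoAt h' (T.node r w).right from hw')]
  rfl

theorem stepOf_polyTime (hs : PolyTime simulF) {h h' : T → T} (hh : PolyTime h)
    (hh' : PolyTime h') : PolyTime (stepOf h h') := by
  classical
  have i := PolyTime.id
  have h1 : PolyDec (fun σ : T => YesAt h σ.right) := (yesAt_polyDec hs hh).comp i.right
  have h2 : PolyDec (fun σ : T => NoAt h' σ.right) := (noAt_polyDec hh').comp i.right
  refine (PolyTime.ifP h1 (PolyTime.const (T.node T.leaf (T.node T.leaf T.leaf)))
    (PolyTime.ifP h2 (PolyTime.const (T.node T.leaf T.leaf))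
      ((PolyTime.const (T.node T.leaf T.leaf)).node (((PolyTime.const T.leaf).node
        i.right.left).node i.right.right)))).congr fun σ => ?_
  unfold stepOf
  by_cases h3 : YesAt h σ.right <;> by_cases h4 : NoAt h' σ.right <;> simp [h3, h4]

/-- The stage `j` is decisive for the instance `X`. -/
def Decisive (h h' : T → T) (X : T) (j : ℕ) : Prop :=
  YesAt h (T.node (T.unary j) X) ∨ NoAt h' (T.node (T.unary j) X)

theorem iterate_stepOf {h h' : T → T} {X : T} {S : ℕ}
    (hS : ∀ j < S, ¬ Decisive h h' X j) (i : ℕ) (hi : i ≤ S) :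
    (stepOf h h')^[i] (T.node (T.node T.leaf T.leaf) (T.node T.leaf X)) =
      T.node (T.node T.leaf T.leaf) (T.node (T.unary i) X) := by
  induction i with
  | zero => rfl
  | succ i ih =>
    rw [Function.iterate_succ_apply', ih (by omega)]
    have h1 := hS i (by omega)
    unfold Decisive at h1
    push Not at h1
    rw [stepOf_else h1.1 h1.2]
    rfl

/-- The run of the algorithm. -/
theorem alg_run (hs : PolyTime simulF) {h h' : T → T} (hh : PolyTime h) (hh' : PolyTime h') :
    ∃ (d : Code) (K : ℕ), ∀ (X : T) (S : ℕ), (∀ j < S, ¬ Decisive h h' X j) →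
      Decisive h h' X S → ∃ (y : T) (t : ℕ), Eval d X y t ∧ t ≤ (S + X.size + 2) ^ K ∧
        ((YesAt h (T.node (T.unary S) X) ∧ y ≠ T.leaf) ∨
          (¬ YesAt h (T.node (T.unary S) X) ∧ NoAt h' (T.node (T.unary S) X) ∧ y = T.leaf)) := by
  classical
  obtain ⟨cs, ks, hcs⟩ := stepOf_polyTime hs hh hh'
  have i := PolyTime.id
  have hinit : PolyTime (fun X => T.node (T.node T.leaf T.leaf) (T.node T.leaf X)) :=
    (PolyTime.const _).node ((PolyTime.const _).node i)
  obtain ⟨ci, ki, hci⟩ := hinit
  have hpoly : PolyB (fun n => (n + 2) ^ ki + (n + 2) * (((2 * n + 8) ^ ks + (2 * n + 8)) + 1) +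
      1) := by
    have h1 : ∀ m, PolyB (fun n => (n + 2) ^ m) := fun m => ⟨m, fun n => le_rfl⟩
    have h2 : PolyB (fun n => 2 * n + 8) :=
      ((PolyB.const 2).mul PolyB.id).add (PolyB.const 8)
    exact ((h1 ki).add ((PolyB.id.add (PolyB.const 2)).mul (((h2.pow ks).add h2).add
      (PolyB.const 1)))).add (PolyB.const 1)
  obtain ⟨K, hK⟩ := hpoly
  refine ⟨Code.comp (Code.loop cs) ci, K, fun X S hS hdec => ?_⟩
  set s0 : T := T.node (T.node T.leaf T.leaf) (T.node T.leaf X) with hs0
  set f := stepOf h h' with hf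
  have hit := iterate_stepOf hS
  -- the last state
  have hlast : f^[S + 1] s0 = (if YesAt h (T.node (T.unary S) X) then
      T.node T.leaf (T.node T.leaf T.leaf) else T.node T.leaf T.leaf) := by
    rw [Function.iterate_succ_apply', hs0, hf, hit S le_rfl]
    by_cases h1 : YesAt h (T.node (T.unary S) X)
    · rw [if_pos h1, stepOf_yes h1]
    · have h2 : NoAt h' (T.node (T.unary S) X) := hdec.resolve_left h1
      rw [if_neg h1, stepOf_no h1 h2]
  have hsz : ∀ j ≤ S, (f^[j] s0).size + 2 ≤ 2 * (S + X.size) + 8 := by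
    intro j hj
    rw [hs0, hf, hit j hj]
    simp only [T.size, T.size_unary]
    omega
  have hleft : (f^[S + 1] s0).left = T.leaf := by
    rw [hlast]
    split_ifs <;> rfl
  obtain ⟨ti, hti, htib⟩ := hci X
  obtain ⟨t, ht, htb⟩ := Eval.loop_of_iterate (c := cs) (f := f)
    (B := (2 * (S + X.size) + 8) ^ ks + (2 * (S + X.size) + 8)) (S + 1) s0
    (fun j hj => by
      rw [hs0, hf, hit j (by omega)]
      simp)
    hleft
    (fun j hj => by
      obtain ⟨t, ht, hb⟩ := hcs (f^[j] s0)
      refine ⟨t, ht, hb.trans ?_⟩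
      have := Nat.pow_le_pow_left (hsz j (by omega)) ks
      omega)
    (fun j hj => by
      rcases Nat.lt_or_ge S j with h1 | h1
      · obtain rfl : j = S + 1 := by omega
        rw [hlast]
        split_ifs <;> simp only [T.size] <;> omega
      · have := hsz j h1
        omega)
  refine ⟨(f^[S + 1] s0).right, _, Eval.comp hti ht, ?_, ?_⟩
  · have h1 := hK (S + X.size)
    have h2 : (X.size + 2) ^ ki ≤ (S + X.size + 2) ^ ki := Nat.pow_le_pow_left (by omega) _
    have h3 : (S + 1 + 1) * ((2 * (S + X.size) + 8) ^ ks + (2 * (S + X.size) + 8) + 1) ≤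
        (S + X.size + 2) * ((2 * (S + X.size) + 8) ^ ks + (2 * (S + X.size) + 8) + 1) :=
      Nat.mul_le_mul_right _ (by omega)
    have h4 : (fun n => (n + 2) ^ ki + (n + 2) * (((2 * n + 8) ^ ks + (2 * n + 8)) + 1) + 1)
        (S + X.size) = (S + X.size + 2) ^ ki + (S + X.size + 2) *
          (((2 * (S + X.size) + 8) ^ ks + (2 * (S + X.size) + 8)) + 1) + 1 := rfl
    rw [h4] at h1
    omega
  · rw [hlast]
    by_cases h1 : YesAt h (T.node (T.unary S) X)
    · left
      rw [if_pos h1]
      exact ⟨h1, by simp⟩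
    · right
      rw [if_neg h1]
      exact ⟨h1, hdec.resolve_left h1, rfl⟩

theorem opt_to_xp (h1 : SIMF_stmt)
    (hopt : ∀ A : Set T, A.Nonempty → InPi2 A → HasPOptimal A) : TotalityInXP := by
  classical
  obtain ⟨hs, hs2, hs3⟩ := h1
  obtain ⟨h, hh, hhopt⟩ := hopt XBt XBt_nonempty (XBt_pi2 hs)
  obtain ⟨h', hh', _⟩ := hopt XCt (XCt_nonempty hs2) (XCt_pi2 hs)
  obtain ⟨d, K, hd⟩ := alg_run hs hh.1 hh'.1
  refine ⟨d, fun c hc => ?_⟩
  obtain ⟨κ, hκ⟩ := hc
  -- exact simulation
  have hsim : ∀ (y z : T) (n : ℕ), y.size ≤ n → z.size ≤ y.size → ∃ (v : T) (t : ℕ),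
      Eval c (T.node y z) v t ∧ simulF (T.node c.enc (T.node (T.node y z)
        (T.unary ((2 * n + 3) ^ κ)))) = T.node T.leaf v := by
    intro y z n hy hz
    obtain ⟨v, t, hev, ht⟩ := hκ (T.node y z)
    refine ⟨v, t, hev, hs2 c _ v t _ hev (ht.trans ?_)⟩
    apply Nat.pow_le_pow_left
    simp only [T.size]
    omega
  have hTB : ∀ n, TotalUpTo c n →
      T.node c.enc (T.node (T.unary n) (T.unary ((2 * n + 3) ^ κ))) ∈ XBt := by
    intro n hn y hy
    simp only [T.right_node, T.left_node, T.len_unary] at hy ⊢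
    obtain ⟨z, hz, v, t, hev, hne⟩ := hn y hy
    obtain ⟨v', t', hev', he⟩ := hsim y z n hy hz
    obtain ⟨rfl, _⟩ := hev.det hev'
    exact ⟨z, hz, by rw [he]; exact hne⟩
  have hBT : ∀ V ∈ XBt, ∀ n, V.left = c.enc → V.right.left = T.unary n → TotalUpTo c n := by
    intro V hV n hl hr y hy
    obtain ⟨z, hz, hne⟩ := hV y (by rw [hr, T.len_unary]; exact hy)
    obtain ⟨v, t, hev, _⟩ := hκ (T.node y z)
    rw [hl] at hne
    refine ⟨z, hz, v, t, hev, ?_⟩
    rcases hs3 c _ v V.right.right t hev with h5 | h5
    · rw [h5] at hne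
      exact absurd rfl hne
    · rw [h5] at hne
      exact hne
  have hCN : ∀ V ∈ XCt, ∀ n, V.left = c.enc → V.right.left.size ≤ n → ¬ TotalUpTo c n := by
    intro V hV n hl hr htot
    obtain ⟨z, hz, v, t, hev, hne⟩ := htot _ hr
    have h5 := hV z hz
    rw [hl] at h5
    rcases hs3 c _ v V.right.right t hev with h6 | h6
    · rw [h5] at h6
      exact absurd h6 (by simp)
    · rw [h5] at h6
      have : T.leaf = v := by injection h6
      exact hne this.symm
  have hNC : ∀ n, ¬ TotalUpTo c n → ∃ x : T, x.size ≤ n ∧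
      T.node c.enc (T.node x (T.unary ((2 * x.size + 3) ^ κ))) ∈ XCt := by
    intro n hn
    unfold TotalUpTo at hn
    push Not at hn
    obtain ⟨x, hx, hx2⟩ := hn
    refine ⟨x, hx, fun z hz => ?_⟩
    simp only [T.right_node, T.left_node] at hz ⊢
    obtain ⟨v, t, hev, he⟩ := hsim x z x.size le_rfl hz
    rw [he, hx2 z hz v t hev]
  -- decisive stages
  have hX : ∀ n S, YesAt h (T.node (T.unary S) (T.node c.enc (T.unary n))) → TotalUpTo c n := by
    rintro n S ⟨_, _, h5, h6⟩
    exact hBT _ (hh.2 ▸ Set.mem_range_self _) n h5 h6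
  have hX' : ∀ n S, NoAt h' (T.node (T.unary S) (T.node c.enc (T.unary n))) →
      ¬ TotalUpTo c n := by
    rintro n S ⟨_, h5, h6⟩
    refine hCN _ (hh'.2 ▸ Set.mem_range_self _) n h5 ?_
    simpa using h6
  have dY : ∀ (a : Code) (n : ℕ) (v : T) (t : ℕ), Eval a (T.unary n) v t →
      (h v).left = c.enc → (h v).right.left = T.unary n →
      Decisive h h' (T.node c.enc (T.unary n))
        (2 ^ tc (T.node T.leaf a.enc) * (2 * t + 1)) := by
    intro a n v t hev hl hr
    left
    have he : simulF (T.node a.enc (T.node (T.unary n)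
        (T.unary (2 ^ tc (T.node T.leaf a.enc) * (2 * t + 1))))) = T.node T.leaf v := by
      refine hs2 a _ v t _ hev ?_
      have : 1 ≤ 2 ^ tc (T.node T.leaf a.enc) := Nat.one_le_two_pow
      nlinarith
    unfold YesAt
    rw [cand_spec]
    simp only [T.right_node, T.left_node]
    rw [he]
    exact ⟨trivial, by simp, hl, hr⟩
  have dN : ∀ (n : ℕ) (w : T), (h' w).left = c.enc → (h' w).right.left.size ≤ n →
      Decisive h h' (T.node c.enc (T.unary n))
        (2 ^ tc (T.node (T.node T.leaf T.leaf) w) * (2 * 0 + 1)) := by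
    intro n w hl hr
    right
    unfold NoAt
    rw [cand_spec]
    simp only [T.right_node, T.left_node, T.len_unary]
    exact ⟨by simp, hl, hr⟩
  have hex : ∀ n, ∃ S, Decisive h h' (T.node c.enc (T.unary n)) S := by
    intro n
    by_cases hn : TotalUpTo c n
    · have hmem := hTB n hn
      rw [← hh.2] at hmem
      obtain ⟨w, hw⟩ := hmem
      obtain ⟨a, j, ha⟩ := PolyTime.const w
      obtain ⟨t, ht, _⟩ := ha (T.unary n)
      exact ⟨_, dY a n w t ht (by rw [hw]; rfl) (by rw [hw]; rfl)⟩
    · obtain ⟨x, hx, hmem⟩ := hNC n hn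
      rw [← hh'.2] at hmem
      obtain ⟨w, hw⟩ := hmem
      exact ⟨_, dN n w (by rw [hw]; rfl) (by rw [hw]; exact hx)⟩
  -- polynomial bound for the first decisive stage
  have hbound : ∃ β : ℕ → ℕ, PolyB β ∧ ∀ n, ∃ S ≤ β n,
      Decisive h h' (T.node c.enc (T.unary n)) S := by
    by_cases hall : ∀ n, TotalUpTo c n
    · have i := PolyTime.id
      let g : T → T := fun w => tif w.left (h w.right) (T.node c.enc
        (T.node (T.unary w.right.len) (T.unary ((2 * w.right.len + 3) ^ κ))))
      have hg : PolyTime g := i.left.tif (hh.1.comp i.right) ((PolyTime.const _).node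
        ((PolyNat.len i.right).unary.node ((((PolyNat.const 2).mul (PolyNat.len i.right)).add
          (PolyNat.const 3)).pow κ).unary))
      have hrange : Set.range g = XBt := by
        ext V
        constructor
        · rintro ⟨w, rfl⟩
          simp only [g, tif]
          split_ifs with hw
          · rw [← hh.2]
            exact ⟨_, rfl⟩
          · exact hTB _ (hall _)
        · intro hV
          rw [← hh.2] at hV
          obtain ⟨w, rfl⟩ := hV
          exact ⟨T.node T.leaf w, by simp [g]⟩
      obtain ⟨t, ht, htg⟩ := hhopt g ⟨hg, hrange⟩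
      obtain ⟨a, j, ha⟩ := ht.comp ((PolyTime.const (T.node T.leaf T.leaf)).node i)
      refine ⟨fun n => 2 ^ tc (T.node T.leaf a.enc) * (2 * (2 * n + 3) ^ j + 1), ?_, fun n => ?_⟩
      · exact (PolyB.const _).mul (((PolyB.const 2).mul ((((PolyB.const 2).mul PolyB.id).add
          (PolyB.const 3)).pow j)).add (PolyB.const 1))
      · obtain ⟨t', ht', hb⟩ := ha (T.unary n)
        have hgn := htg (T.node (T.node T.leaf T.leaf) (T.unary n))
        simp only [g, T.left_node, T.right_node, T.len_unary, tif_node] at hgn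
        refine ⟨_, ?_, dY a n _ t' ht' (by rw [hgn]; rfl) (by rw [hgn]; rfl)⟩
        apply Nat.mul_le_mul_left
        have h5 : ((T.unary n).size + 2) ^ j = (2 * n + 3) ^ j := by
          rw [T.size_unary]
        rw [h5] at hb
        omega
    · push Not at hall
      obtain ⟨n₀, hn₀⟩ := hall
      obtain ⟨x, _, hmem⟩ := hNC n₀ hn₀
      rw [← hh'.2] at hmem
      obtain ⟨w, hw⟩ := hmem
      choose Sf hSf using hex
      refine ⟨fun _ => 2 ^ tc (T.node (T.node T.leaf T.leaf) w) * (2 * 0 + 1) +
        ∑ i ∈ Finset.range x.size, Sf i, PolyB.const _, fun n => ?_⟩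
      by_cases hn : x.size ≤ n
      · exact ⟨_, Nat.le_add_right _ _, dN n w (by rw [hw]; rfl) (by rw [hw]; exact hn)⟩
      · refine ⟨Sf n, ?_, hSf n⟩
        have : Sf n ≤ ∑ i ∈ Finset.range x.size, Sf i :=
          Finset.single_le_sum (f := Sf) (fun _ _ => Nat.zero_le _)
            (Finset.mem_range.2 (not_le.1 hn))
        exact this.trans (Nat.le_add_left _ _)
  obtain ⟨β, hβ, hSβ⟩ := hbound
  have hpoly : PolyB (fun n => (β n + (c.enc.size + (2 * n + 1) + 1) + 2) ^ K) :=
    ((hβ.add (((PolyB.const c.enc.size).add (((PolyB.const 2).mul PolyB.id).add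
      (PolyB.const 1))).add (PolyB.const 1))).add (PolyB.const 2)).pow K
  obtain ⟨k, hk⟩ := hpoly
  refine ⟨k, fun n => ?_⟩
  obtain ⟨S', hS', hdec'⟩ := hSβ n
  have hmin := Nat.find_min' ⟨S', hdec'⟩ hdec'
  have hdec := Nat.find_spec ⟨S', hdec'⟩
  set S := Nat.find ⟨S', hdec'⟩ with hS
  have hlt : ∀ j < S, ¬ Decisive h h' (T.node c.enc (T.unary n)) j := fun j hj =>
    Nat.find_min ⟨S', hdec'⟩ hj
  obtain ⟨y, t, hev, ht, hy⟩ := hd (T.node c.enc (T.unary n)) S hlt hdec
  refine ⟨y, t, hev, ht.trans (le_trans ?_ (hk n)), ?_⟩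
  · apply Nat.pow_le_pow_left
    simp only [T.size, T.size_unary]
    omega
  · rcases hy with ⟨h5, h6⟩ | ⟨_, h5, h6⟩
    · exact ⟨fun _ => hX n S h5, fun _ => h6⟩
    · exact ⟨fun h7 => absurd h6 h7, fun h7 => absurd h7 (hX' n S h5)⟩

end Pool.Agent.PO
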