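import Pool.Agent.PO.Stmts

/-!
# If the reflection conjecture fails, all sets in coNP have p-optimal proof systems
-/

namespace Pool.Agent.PO

open Pool.Agent.H19

section
variable (f₀ : T → T) (k : ℕ)

/-- The output of the clocked run described by `y = node q (node w B)`. -/
def conOut (y : T) : T := simulF (T.node y.left (T.node y.right.left y.right.right))

/-- The code `z.right` is that of an additional axiom of the theory with parameter `z.left`. -/
def ConAcc (z : T) : Prop :=
  (falsum (unfalsum z.right)).enc = z.right ∧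
    conOut (T.node z.left (unfalsum z.right).left) ≠ T.leaf ∧
    (unfalsum z.right).right.size ≤
      ((conOut (T.node z.left (unfalsum z.right).left)).right.size + 2) ^ k ∧
    f₀ (T.node (conOut (T.node z.left (unfalsum z.right).left)).right
      (unfalsum z.right).right) ≠ T.leaf

/-- The bound on the lengths. -/
def conN (C : ℕ) (y : T) : ℕ :=
  65 * (y.right.left.size + y.right.right.size + 2 + ((conOut y).right.size + 2) ^ k) + C

end

theorem conOut_polyTime (hs : PolyTime simulF) : PolyTime conOut := by
  have i := PolyTime.id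
  exact hs.comp (i.left.node (i.right.left.node i.right.right))

theorem conAcc_polyDec (hs : PolyTime simulF) {f₀ : T → T} (hf₀ : PolyTime f₀) (k : ℕ) :
    PolyDec (ConAcc f₀ k) := by
  have i := PolyTime.id
  have hv : PolyTime (fun z : T => unfalsum z.right) :=
    uu_polyTime.comp i.right.right.left.right.left
  have ho : PolyTime (fun z : T => conOut (T.node z.left (unfalsum z.right).left)) :=
    (conOut_polyTime hs).comp (i.left.node hv.left)
  refine (PolyDec.eq (falsum_polyTime.comp hv) i.right).and ((PolyDec.ne_leaf ho).and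
    ((PolyDec.le (PolyNat.size hv.right) (((PolyNat.size ho.right).add
      (PolyNat.const 2)).pow k)).and (PolyDec.ne_leaf (hf₀.comp (ho.right.node hv.right)))))

theorem conN_polyNat (hs : PolyTime simulF) (k C : ℕ) : PolyNat (conN k C) := by
  have i := PolyTime.id
  exact ((PolyNat.const 65).mul ((((PolyNat.size i.right.left).add
    (PolyNat.size i.right.right)).add (PolyNat.const 2)).add
    (((PolyNat.size (conOut_polyTime hs).right).add (PolyNat.const 2)).pow k))).add
    (PolyNat.const C)

theorem CON_thm (h1 : SIMF_stmt) (h2 : PARAM_stmt) : CON_stmt := by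
  classical
  intro μ P hμ hP hQ A hA hco
  obtain ⟨hs, hs2, hs3⟩ := h1
  have i := PolyTime.id
  -- the theory `S`
  unfold ReflectionConjecture at hQ
  push Not at hQ
  obtain ⟨S, hS, hall⟩ := hQ
  obtain ⟨l₀, hl₀⟩ := hA
  obtain ⟨f₀, k, hf₀, hA₀⟩ := hco
  obtain ⟨fP, hfP, hfPc⟩ := hP.poly
  obtain ⟨e₀, z₀, hfalse⟩ := hμ.false_instance
  have hSdec := DecTh.of_inClassT hS
  obtain ⟨hSc, fS, _, hSf⟩ := hS
  have hSS : S12 ⊆ S := fun φ hφ => (hSf φ).2 (Or.inl hφ)
  let φ₀ : Fm := inst3 μ e₀ 0 z₀
  let C : ℕ := 7 * φ₀.enc.size + 1002 + e₀.size + z₀.size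
  -- the parametrised theories
  obtain ⟨fA, hfA, hfA2⟩ := conAcc_polyDec hs hf₀ k
  obtain ⟨pc, pk, hpp, hq⟩ := h2 fA hfA
  have hacc : ∀ q x, Accepts (pc q) (pk q) x ↔ ConAcc f₀ k (T.node q x) := fun q x => by
    rw [(hq q).2 x, hfA2]
  -- the proof system
  let cond : T → Prop := fun z => conOut z.left ≠ T.leaf ∧
    IsProof S (decProof z.right) (rfn (P (pc z.left.left) (pk z.left.left)) μ (conN k C z.left))
  have hcond : PolyDec cond := by
    refine (PolyDec.ne_leaf ((conOut_polyTime hs).comp i.left)).and ?_
    refine ((isProof_polyDec hSdec).comp (i.right.node (rfn_polyTime μ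
      (hfP.comp (hpp.comp i.left.left)) ((conN_polyNat hs k C).comp i.left)))).congr fun z => ?_
    simp only [T.left_node, T.right_node, decFm_enc, hfPc]
  let h : T → T := fun z => if cond z then (conOut z.left).right else l₀
  have hh : PolyTime h := by
    refine (PolyTime.ifP hcond ((conOut_polyTime hs).comp i.left).right
      (PolyTime.const l₀)).congr fun z => ?_
    by_cases hc : cond z <;> simp [h, hc]
  -- soundness
  have hsound : ∀ z, h z ∈ A := by
    intro z
    by_cases hc : cond z
    · have hz : h z = (conOut z.left).right := by simp only [h, hc, if_true]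
      rw [hz]
      by_contra hnot
      obtain ⟨y, hy1, hy2⟩ := (hA₀ _).1 hnot
      obtain ⟨hc1, hc2⟩ := hc
      let v : T := T.node (T.node z.left.right.left z.left.right.right) y
      have hmem : falsum v ∈ theory (pc z.left.left) (pk z.left.left) := by
        refine Or.inr ((hacc _ _).2 ?_)
        simp only [ConAcc, T.left_node, T.right_node, unfalsum_enc, v, true_and]
        exact ⟨hc1, hy1, hy2⟩
      have hsize := refute_size v φ₀
      have hnum := T.num_size (encProof (refute v φ₀))
      have hvs : v.size = z.left.right.left.size + z.left.right.right.size + 2 + y.size := by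
        simp only [v, T.size]; omega
      have hN : 65 * v.size + C ≤ conN k C z.left := by
        unfold conN
        rw [hvs]
        have : y.size ≤ ((conOut z.left).right.size + 2) ^ k := hy1
        omega
      have hC : C = 7 * φ₀.enc.size + 1002 + e₀.size + z₀.size := rfl
      have hcorrect : (P (pc z.left.left) (pk z.left.left)).sat stdN
          (vec4 e₀ 0 z₀ (encProof (refute v φ₀)).num) :=
        (hP.correct _ _ e₀ 0 z₀ _).2 ⟨_, rfl, refute_isProof hmem φ₀⟩
      have hPb : (P (pc z.left.left) (pk z.left.left)).bdd = true :=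
        (Fm.bdd_of _).1 (hP.delta _ _).1
      have hμb : μ.bdd = true := (Fm.bdd_of _).1 hμ.1
      have h4 := rfn_sound hSS hSc hPb hμb ⟨_, hc2⟩ (e := e₀) (x := 0) (z := z₀)
        (u := (encProof (refute v φ₀)).num)
        (by omega) (by simp) (by omega) (by rw [hnum]; omega) hcorrect
      refine hfalse ((Fm.sat_congr_below stdN μ hμ.2.1 (fun i hi => ?_)).1 h4)
      rcases i with _ | _ | _ | i
      · rfl
      · rfl
      · rfl
      · omega
    · have hz : h z = l₀ := by simp only [h, hc, if_false]
      rw [hz]; exact hl₀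
  -- simulation
  have hsim : ∀ g : T → T, PolyTime g → (∀ w, g w ∈ A) → PSimulates h g := by
    intro g hg hgA
    obtain ⟨a, j, ha⟩ := hg
    have hno : ∀ x, ¬ ConAcc f₀ k (T.node a.enc x) := by
      rintro x ⟨_, hx2, hx3, hx4⟩
      simp only [T.left_node, T.right_node] at hx2 hx3 hx4
      obtain ⟨t, ht, _⟩ := ha (unfalsum x).left.left
      have ho : conOut (T.node a.enc (unfalsum x).left) =
          T.node T.leaf (g (unfalsum x).left.left) := by
        rcases hs3 a _ _ (unfalsum x).left.right t ht with h5 | h5
        · exact absurd h5 hx2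
        · exact h5
      rw [ho, T.right_node] at hx3 hx4
      exact (hA₀ _).2 ⟨_, hx3, hx4⟩ (hgA _)
    have hclass : InClassT (theory (pc a.enc) (pk a.enc)) := by
      refine ⟨⟨ℕ, stdN, ?_⟩, fun _ => T.leaf, PolyTime.leaf, fun φ => ?_⟩
      · rintro φ (h5 | h5)
        · exact stdN_models φ h5
        · exact absurd ((hacc _ _).1 h5) (hno _)
      · constructor
        · rintro (h5 | h5)
          · exact Or.inl h5
          · exact absurd ((hacc _ _).1 h5) (hno _)
        · rintro (h5 | h5)
          · exact Or.inl h5
          · exact absurd rfl h5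
    obtain ⟨f, hf, hfπ⟩ := hall _ _ (hq a.enc).1 hclass
    let y : T → T := fun w => T.node a.enc (T.node w (T.unary ((w.size + 2) ^ j)))
    have hy : PolyTime y := (PolyTime.const _).node (i.node
      (((PolyNat.size i).add (PolyNat.const 2)).pow j).unary)
    refine ⟨fun w => T.node (y w) (f (T.unary (conN k C (y w)))),
      hy.node (hf.comp (((conN_polyNat hs k C).comp hy).unary)), fun w => ?_⟩
    obtain ⟨t, ht, htb⟩ := ha w
    have ho : conOut (y w) = T.node T.leaf (g w) := hs2 a w (g w) t _ ht htb
    obtain ⟨π, hπ1, hπ2⟩ := hfπ (conN k C (y w))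
    have hc : cond (T.node (y w) (f (T.unary (conN k C (y w))))) := by
      refine ⟨?_, ?_⟩
      · rw [T.left_node, ho]; simp
      · rw [T.left_node, T.right_node, hπ1, decProof_enc]
        exact hπ2
    simp only [h, hc, if_true, T.left_node, ho, T.right_node]
  refine ⟨h, ⟨hh, ?_⟩, fun g hg => hsim g hg.1 fun w => hg.2 ▸ Set.mem_range_self w⟩
  ext l
  constructor
  · rintro ⟨z, rfl⟩
    exact hsound z
  · intro hl
    obtain ⟨t, _, ht⟩ := hsim (fun _ => l) (PolyTime.const l) fun _ => hl
    exact ⟨t T.leaf, ht T.leaf⟩

end Pool.Agent.PO
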