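import Pool.Agent.PO.Stmts

/-!
# NP relations are definable by strict formulas, by means of a formalisation of proofs

`DEF_thm`: for every NP relation there is a formula, true of the number attached to `X` exactly
if `X` is in the domain of the relation. The formula says that the number is an initial segment
of the Goedel number of a proof in a suitable theory.
-/

namespace Pool.Agent.PO.DEF

open Pool.Agent.H19

/-! ### Digits of Goedel numbers -/

/-- The description of a tree by a list of digits. -/
def code : T → List Bool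
  | T.leaf => [false]
  | T.node l r => true :: (code l ++ code r)

/-- The number obtained from `n` by appending digits. -/
def val (n : ℕ) : List Bool → ℕ
  | [] => n
  | b :: l => val (2 * n + (if b then 1 else 0)) l

theorem val_append (l l' : List Bool) : ∀ n, val n (l ++ l') = val (val n l) l' := by
  induction l with
  | nil => intro n; rfl
  | cons b l ih => intro n; simp only [List.cons_append, val, ih]

theorem gn_eq (x : T) : ∀ n, T.gn x n = val n (code x) := by
  induction x with
  | leaf => intro n; simp [T.gn, code, val]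
  | node l r ihl ihr =>
    intro n
    simp only [T.gn, code, val, val_append, ihl, ihr, if_true]

theorem val_eq (l : List Bool) : ∀ n, val n l = n * 2 ^ l.length + val 0 l := by
  induction l with
  | nil => intro n; simp [val]
  | cons b l ih =>
    intro n
    simp only [val, List.length_cons]
    rw [ih (2 * n + (if b then 1 else 0)), ih (2 * 0 + (if b then 1 else 0)), pow_succ]
    ring

theorem val_lt (l : List Bool) : val 0 l < 2 ^ l.length := by
  induction l with
  | nil => simp [val]
  | cons b l ih =>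
    simp only [val, List.length_cons]
    rw [val_eq, pow_succ]
    cases b <;> simp <;> omega

theorem val_inj_aux (l : List Bool) : ∀ (l' : List Bool) (n n' : ℕ), l.length = l'.length →
    val n l = val n' l' → n = n' ∧ l = l' := by
  induction l with
  | nil =>
    intro l' n n' h1 h2
    cases l' with
    | nil => exact ⟨h2, rfl⟩
    | cons b l' => simp at h1
  | cons b l ih =>
    intro l' n n' h1 h2
    cases l' with
    | nil => simp at h1
    | cons b' l' =>
      simp only [val] at h2
      obtain ⟨h3, h4⟩ := ih l' _ _ (by simpa using h1) h2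
      subst h4
      cases b <;> cases b' <;> simp at h3 <;> first | (exact ⟨by omega, rfl⟩) | omega

theorem val_inj {l l' : List Bool} (h : val 1 l = val 1 l') : l = l' := by
  have h1 := val_eq l 1
  have h2 := val_lt l
  have h3 := val_eq l' 1
  have h4 := val_lt l'
  have hlen : l.length = l'.length := by
    rcases lt_trichotomy l.length l'.length with h5 | h5 | h5
    · have h6 : 2 ^ (l.length + 1) ≤ 2 ^ l'.length := Nat.pow_le_pow_right (by omega) h5
      rw [pow_succ] at h6
      omega
    · exact h5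
    · have h6 : 2 ^ (l'.length + 1) ≤ 2 ^ l.length := Nat.pow_le_pow_right (by omega) h5
      rw [pow_succ] at h6
      omega
  exact (val_inj_aux l l' 1 1 hlen h).2

theorem val_surj (k : ℕ) : ∀ r, r < 2 ^ k → ∃ l : List Bool, l.length = k ∧ val 0 l = r := by
  induction k with
  | zero => intro r hr; exact ⟨[], rfl, by simp at hr; simp [val, hr]⟩
  | succ k ih =>
    intro r hr
    rw [pow_succ] at hr
    obtain ⟨l, h1, h2⟩ := ih (r / 2) (by omega)
    refine ⟨l ++ [decide (r % 2 = 1)], by simp [h1], ?_⟩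
    rw [val_append, h2]
    simp only [val]
    by_cases h : r % 2 = 1
    · simp [h]; omega
    · simp [h]; omega

/-- Descriptions are prefix-free. -/
theorem code_prefix (s : T) : ∀ (t : T) (a b : List Bool), code s ++ a = code t ++ b →
    s = t ∧ a = b := by
  induction s with
  | leaf =>
    intro t a b h
    cases t with
    | leaf => simpa [code] using h
    | node l r => simp [code] at h
  | node l r ihl ihr =>
    intro t a b h
    cases t with
    | leaf => simp [code] at h
    | node l' r' =>
      simp only [code, List.cons_append, List.cons.injEq, true_and, List.append_assoc] at h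
      obtain ⟨h1, h2⟩ := ihl l' _ _ h
      obtain ⟨h3, h4⟩ := ihr r' _ _ h2
      exact ⟨by rw [h1, h3], h4⟩

/-- An initial segment of a Goedel number. -/
theorem seg {x : T} {A : List Bool} {k r : ℕ} (hr : r < 2 ^ k)
    (h : x.num = val 1 A * 2 ^ k + r) : ∃ rest, code x = A ++ rest := by
  obtain ⟨l, h1, h2⟩ := val_surj k r hr
  refine ⟨l, val_inj ?_⟩
  rw [val_append, val_eq l (val 1 A), h1, h2, ← h, T.num, gn_eq]

/-! ### The prefix -/

/-- The digits that precede `(tt X).enc` in the Goedel number of a proof that begins with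
`falsum (node X y)`. -/
def pre : List Bool :=
  true :: true :: false :: true :: (code (T.unary 11) ++ (true :: true :: (code (T.unary 9) ++
    (true :: true :: (code (T.unary 5) ++ [true])))))

theorem unary_inj {m n : ℕ} (h : T.unary m = T.unary n) : m = n := by
  have := congrArg T.size h
  rw [T.size_unary, T.size_unary] at this
  omega

/-- Reading a tagged tree. -/
theorem tag {i j : ℕ} {w : T} {a b : List Bool}
    (h : code (T.node (T.unary i) w) ++ a = true :: (code (T.unary j) ++ b)) :
    i = j ∧ code w ++ a = b := by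
  simp only [code, List.cons_append, List.cons.injEq, true_and, List.append_assoc] at h
  obtain ⟨h1, h2⟩ := code_prefix _ _ _ _ h
  exact ⟨unary_inj h1, h2⟩

theorem parse_tm {t : Tm} {a b : List Bool}
    (h : code t.enc ++ a = true :: (code (T.unary 5) ++ b)) :
    ∃ t1 t2, t = Tm.add t1 t2 ∧ code (T.node t1.enc t2.enc) ++ a = b := by
  cases t with
  | add t1 t2 => exact ⟨t1, t2, rfl, (tag h).2⟩
  | _ => exact absurd (tag h).1 (by omega)

theorem parse_eq {φ : Fm} {a b : List Bool}
    (h : code φ.enc ++ a = true :: (code (T.unary 9) ++ b)) :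
    ∃ t1 t2, φ = Fm.eq t1 t2 ∧ code (T.node t1.enc t2.enc) ++ a = b := by
  cases φ with
  | eq t1 t2 => exact ⟨t1, t2, rfl, (tag h).2⟩
  | _ => exact absurd (tag h).1 (by omega)

theorem parse_imp {φ : Fm} {a b : List Bool}
    (h : code φ.enc ++ a = true :: (code (T.unary 11) ++ b)) :
    ∃ t1 t2, φ = Fm.imp t1 t2 ∧ code (T.node t1.enc t2.enc) ++ a = b := by
  cases φ with
  | imp t1 t2 => exact ⟨t1, t2, rfl, (tag h).2⟩
  | _ => exact absurd (tag h).1 (by omega)

theorem parse_step {s : Step} {a b : List Bool}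
    (h : code s.enc ++ a = true :: (code (T.unary 0) ++ b)) :
    ∃ φ, s = Step.hyp φ ∧ code φ.enc ++ a = b := by
  cases s with
  | hyp φ => exact ⟨φ, rfl, (tag h).2⟩
  | _ => exact absurd (tag h).1 (by omega)

/-- Parsing a proof with the given initial segment. -/
theorem parse {π : List Step} {w : T} {rest : List Bool}
    (h : code (encProof π) = pre ++ (code w ++ rest)) :
    ∃ (t1 t2 t3 : Tm) (ψ : Fm) (π' : List Step), t1.enc = w ∧
      π = Step.hyp (Fm.imp (Fm.eq (Tm.add t1 t2) t3) ψ) :: π' := by
  cases π with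
  | nil => simp [encProof, code, pre] at h
  | cons s π' =>
    simp only [encProof, code, pre, List.cons_append, List.cons.injEq, true_and,
      List.append_assoc] at h
    have h' : code s.enc ++ code (encProof π') = true :: (code (T.unary 0) ++
        (true :: (code (T.unary 11) ++ (true :: true :: (code (T.unary 9) ++
          (true :: true :: (code (T.unary 5) ++ (true :: (code w ++ rest))))))))) := by
      rw [h]; simp [code, T.unary]
    obtain ⟨φ, rfl, h1⟩ := parse_step h'
    obtain ⟨φ1, φ2, rfl, h2⟩ := parse_imp h1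
    simp only [code, List.cons_append, List.cons.injEq, true_and, List.append_assoc] at h2
    obtain ⟨t1, t2, rfl, h3⟩ := parse_eq h2
    simp only [code, List.cons_append, List.cons.injEq, true_and, List.append_assoc] at h3
    obtain ⟨t3, t4, rfl, h4⟩ := parse_tm h3
    simp only [code, List.cons_append, List.cons.injEq, true_and, List.append_assoc] at h4
    obtain ⟨h5, -⟩ := code_prefix _ _ _ _ h4
    exact ⟨t3, t4, t2, φ2, π', h5, rfl⟩

/-! ### Formulas -/

theorem numeral_occurs (n i : ℕ) : (Tm.numeral n).occurs i = false := by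
  induction n using Nat.strong_induction_on with
  | _ n ih =>
    by_cases h : n = 0
    · subst h; rw [Tm.numeral_zero]; rfl
    · rw [Tm.numeral_pos h]
      split_ifs with h2
      · simp [Tm.occurs, Tm.two, ih (n / 2) (by omega)]
      · simp [Tm.occurs, Tm.two, ih (n / 2) (by omega)]

theorem numeral_below (n k : ℕ) : (Tm.numeral n).fvBelow k := by
  induction n using Nat.strong_induction_on with
  | _ n ih =>
    by_cases h : n = 0
    · subst h; rw [Tm.numeral_zero]; trivial
    · rw [Tm.numeral_pos h]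
      split_ifs with h2
      · simp [Tm.fvBelow, Tm.two, ih (n / 2) (by omega)]
      · simp [Tm.fvBelow, Tm.two, ih (n / 2) (by omega)]

theorem tm_below_mono {t : Tm} {k l : ℕ} (hkl : k ≤ l) (h : t.fvBelow k) : t.fvBelow l := by
  induction t with
  | var i => simp only [Tm.fvBelow] at h ⊢; omega
  | zero => trivial
  | succ t ih => exact ih h
  | half t ih => exact ih h
  | len t ih => exact ih h
  | add s t ih1 ih2 => exact ⟨ih1 h.1, ih2 h.2⟩
  | mul s t ih1 ih2 => exact ⟨ih1 h.1, ih2 h.2⟩
  | smash s t ih1 ih2 => exact ⟨ih1 h.1, ih2 h.2⟩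

theorem fm_below_mono {φ : Fm} : ∀ {k l : ℕ}, k ≤ l → φ.fvBelow k → φ.fvBelow l := by
  induction φ with
  | bot => intro k l _ _; trivial
  | eq s t => intro k l hkl h; exact ⟨tm_below_mono hkl h.1, tm_below_mono hkl h.2⟩
  | le s t => intro k l hkl h; exact ⟨tm_below_mono hkl h.1, tm_below_mono hkl h.2⟩
  | imp φ ψ ih1 ih2 => intro k l hkl h; exact ⟨ih1 hkl h.1, ih2 hkl h.2⟩
  | all φ ih => intro k l hkl h; exact ih (by omega : k + 1 ≤ l + 1) h

/-- Bounded existential quantification; the term `t` is read below the quantifier. -/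
def exB (t : Tm) (φ : Fm) : Fm := Fm.neg (Fm.all (Fm.imp (Fm.le (Tm.var 0) t) (Fm.neg φ)))

theorem exB_sigma {t : Tm} {φ : Fm} (ht : t.occurs 0 = false) (h : φ.isSigma = true) :
    (exB t φ).isSigma = true := by
  simp [exB, Fm.neg, Fm.isSigma, Fm.isPi, Fm.guarded, ht, h]

theorem and_sigma {φ ψ : Fm} (h : φ.isSigma = true) (h' : ψ.isSigma = true) :
    (Fm.and φ ψ).isSigma = true := by
  simp [Fm.and, Fm.neg, Fm.isSigma, Fm.isPi, h, h']

theorem exB_below {t : Tm} {φ : Fm} {k : ℕ} (ht : t.fvBelow (k + 1)) (h : φ.fvBelow (k + 1)) :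
    (exB t φ).fvBelow k := by
  refine ⟨⟨⟨?_, ht⟩, ⟨h, trivial⟩⟩, trivial⟩
  simp [Tm.fvBelow]

theorem and_below {φ ψ : Fm} {k : ℕ} (h : φ.fvBelow k) (h' : ψ.fvBelow k) :
    (Fm.and φ ψ).fvBelow k := ⟨⟨h, ⟨h', trivial⟩⟩, trivial⟩

theorem exB_sat (t : Tm) (φ : Fm) (v : ℕ → ℕ) :
    (exB t φ).sat stdN v ↔ ∃ a, a ≤ t.val stdN (scons a v) ∧ φ.sat stdN (scons a v) := by
  simp only [exB, Fm.sat_neg, Fm.sat, Tm.val, scons]
  simp only [stdN]
  push Not
  rfl

/-- The formula saying that `x` is an initial segment of `u`, where `u` and `x` are the variables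
`3` and `4`. -/
def segF : Fm := exB (Tm.var 4) (exB (Tm.var 5) (Fm.and
  (Fm.eq (Tm.var 5) (Tm.add (Tm.mul (Tm.var 6) (Tm.smash (Tm.succ Tm.zero) (Tm.var 1)))
    (Tm.var 0)))
  (Fm.neg (Fm.le (Tm.smash (Tm.succ Tm.zero) (Tm.var 1)) (Tm.var 0)))))

theorem segF_sat (v : ℕ → ℕ) : segF.sat stdN v ↔ ∃ q, q ≤ v 3 ∧ ∃ r, r ≤ v 3 ∧
    v 3 = v 4 * 2 ^ q.size + r ∧ r < 2 ^ q.size := by
  simp only [segF, exB_sat, Fm.sat_and, Fm.sat_neg, Fm.sat, Tm.val, scons]
  simp only [stdN, Nat.zero_add, Nat.size_one, Nat.one_mul, not_le]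

/-- The formula. -/
def alpha (P : Fm) (e z C : ℕ) : Fm :=
  exB (Tm.smash (Tm.var 1) (Tm.numeral C)) (exB (Tm.numeral z) (exB Tm.zero (exB (Tm.numeral e)
    (Fm.and (Fm.eq (Tm.var 0) (Tm.numeral e)) (Fm.and (Fm.eq (Tm.var 2) (Tm.numeral z))
      (Fm.and P segF))))))

theorem alpha_sigma {P : Fm} (hP : P.isSigma = true) (e z C : ℕ) :
    (alpha P e z C).isSigma = true := by
  have hseg : segF.isSigma = true := by
    refine exB_sigma rfl (exB_sigma rfl (and_sigma rfl ?_))
    simp [Fm.neg, Fm.isSigma, Fm.isPi]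
  refine exB_sigma ?_ (exB_sigma (numeral_occurs _ _) (exB_sigma rfl
    (exB_sigma (numeral_occurs _ _) (and_sigma rfl (and_sigma rfl (and_sigma hP hseg))))))
  simp [Tm.occurs, numeral_occurs]

theorem alpha_below {P : Fm} (hP : P.fvBelow 4) (e z C : ℕ) : (alpha P e z C).fvBelow 1 := by
  have hseg : segF.fvBelow 5 := by
    simp [segF, exB, Fm.and, Fm.neg, Fm.fvBelow, Tm.fvBelow]
  have hP5 : P.fvBelow 5 := fm_below_mono (by omega) hP
  have hv : ∀ i n, i < n → (Tm.var i).fvBelow n := fun i n h => h
  refine exB_below ⟨hv _ _ (by omega), numeral_below _ _⟩ (exB_below (numeral_below _ _)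
    (exB_below trivial (exB_below (numeral_below _ _) (and_below
      ⟨hv _ _ (by omega), numeral_below _ _⟩ (and_below ⟨hv _ _ (by omega), numeral_below _ _⟩
        (and_below hP5 hseg))))))

theorem alpha_sat {P : Fm} (hP : P.fvBelow 4) (e z C x : ℕ) (v : ℕ → ℕ) :
    (alpha P e z C).sat stdN (scons x v) ↔ ∃ u, u ≤ 2 ^ (x.size * C.size) ∧
      P.sat stdN (vec4 e 0 z u) ∧ ∃ q, q ≤ u ∧ ∃ r, r ≤ u ∧ u = x * 2 ^ q.size + r ∧
        r < 2 ^ q.size := by
  simp only [alpha, exB_sat, Fm.sat_and, Fm.sat, segF_sat, Tm.val, Tm.numeral_val]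
  have hPc : ∀ u : ℕ, P.sat stdN (scons e (scons 0 (scons z (scons u (scons x v))))) ↔
      P.sat stdN (vec4 e 0 z u) := by
    intro u
    refine Fm.sat_congr_below stdN P hP fun i hi => ?_
    rcases i with _ | _ | _ | _ | i
    · rfl
    · rfl
    · rfl
    · rfl
    · omega
  constructor
  · rintro ⟨u, hu, z', -, x', hx', e', -, h1, h2, h3, h4⟩
    simp only [scons] at h1 h2 h4 hu hx'
    have hx0 : x' = 0 := by
      simp only [stdN] at hx'; omega
    subst h1 h2 hx0
    exact ⟨u, hu, (hPc u).1 h3, h4⟩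
  · rintro ⟨u, hu, h3, h4⟩
    refine ⟨u, hu, z, le_rfl, 0, ?_, e, le_rfl, rfl, rfl, (hPc u).2 h3, h4⟩
    simp only [stdN]; exact le_rfl

/-! ### The axioms of the theory have another shape -/

theorem not_S12 (t1 t2 t3 : Tm) (ψ : Fm) : Fm.imp (Fm.eq (Tm.add t1 t2) t3) ψ ∉ S12 := by
  rintro (h | ⟨χ, -, h⟩)
  · simp [basicList, Fm.neg, Fm.and, Fm.or, Fm.iff] at h
  · simp [pind] at h

theorem tt_inj {x y : T} (h : tt x = tt y) : x = y := by
  rw [← uu_tt x, ← uu_tt y, h]

theorem tt_size_ge (x : T) : x.size ≤ (tt x).enc.size := by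
  induction x with
  | leaf => exact T.size_pos _
  | node a b iha ihb => simp only [tt, Tm.enc, T.size, T.size_unary]; omega

theorem code_refute (X y : T) (φ : Fm) :
    ∃ rest, code (encProof (refute (T.node X y) φ)) = pre ++ (code (tt X).enc ++ rest) := by
  refine ⟨code (tt y).enc ++ (code (tt (T.node X y)).enc ++ (code Fm.bot.enc ++
    code (encProof (refute (T.node X y) φ).tail))), ?_⟩
  simp [refute, encProof, Step.enc, falsum, Fm.enc, tt, Tm.enc, code, pre, List.append_assoc,
    T.unary]

/-- A program with a clock accepting exactly the codes of the sentences `falsum v`, where `v` is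
in a given decidable set. -/
theorem exists_prog {G : T → Prop} (hG : PolyDec G) : ∃ (c : Code) (κ : ℕ), ∀ x : T,
    Accepts c κ x ↔ ((falsum (unfalsum x)).enc = x ∧ G (unfalsum x)) := by
  have i := PolyTime.id
  have hv : PolyTime unfalsum := uu_polyTime.comp i.right.left.right.left
  obtain ⟨f, ⟨c, κ, hc⟩, hf⟩ := (PolyDec.eq (falsum_polyTime.comp hv) i).and (hG.comp hv)
  refine ⟨c, κ, fun x => ?_⟩
  obtain ⟨t, ht, hb⟩ := hc x
  rw [accepts_iff ht hb]
  exact (hf x).symm

end Pool.Agent.PO.DEF

namespace Pool.Agent.PO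

open Pool.Agent.H19 DEF

/-- **NP relations are definable** by formulas of the class, given a formalisation of proofs. -/
theorem DEF_thm (hG : GN_stmt) : DEF_stmt := by
  intro μ P hμ hP F hF hFs
  obtain ⟨e₀, z₀, hfalse⟩ := hμ.false_instance
  obtain ⟨c, κ, hacc⟩ := exists_prog hF
  let φ₀ : Fm := inst3 μ e₀ 0 z₀
  obtain ⟨N, hN⟩ : ∃ N : ℕ, N = 7 * φ₀.enc.size + 1000 := ⟨_, rfl⟩
  have hC0 : val 1 pre ≠ 0 := by
    rw [val_eq]
    have : 0 < 2 ^ pre.length := by positivity
    omega
  refine ⟨alpha (P c κ) e₀ z₀ (2 ^ (200 + N)), fun X => T.gn (tt X).enc (val 1 pre),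
    alpha_sigma (hP.delta c κ).1 _ _ _, alpha_below (hP.below c κ) _ _ _,
    hG (fun X => (tt X).enc) (val 1 pre) hC0 tt_polyTime, fun X v => ?_⟩
  rw [alpha_sat (hP.below c κ)]
  beta_reduce
  constructor
  · rintro ⟨u, -, h1, q, -, r, -, h2, h3⟩
    obtain ⟨π, hu, hπ⟩ := (hP.correct c κ e₀ 0 z₀ u).1 h1
    have h4 : (encProof π).num = val 1 (pre ++ code (tt X).enc) * 2 ^ q.size + r := by
      rw [← hu, h2, gn_eq, val_append]
    obtain ⟨rest, h5⟩ := seg h3 h4
    rw [List.append_assoc] at h5
    obtain ⟨t1, t2, t3, ψ, π', h6, rfl⟩ := parse h5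
    have h7 : Fm.imp (Fm.eq (Tm.add t1 t2) t3) ψ ∈ theory c κ := hπ.1
    rcases h7 with h7 | h7
    · exact absurd h7 (not_S12 _ _ _ _)
    · obtain ⟨h8, h9⟩ := (hacc _).1 h7
      have h10 := Fm.enc_inj.1 h8
      simp only [falsum, Fm.imp.injEq, Fm.eq.injEq] at h10
      have h11 := h10.1.1
      have h12 : t1 = tt X := Tm.enc_inj.1 h6
      generalize unfalsum (Fm.imp (Fm.eq (Tm.add t1 t2) t3) ψ).enc = w at h9 h11
      cases w with
      | leaf => simp [tt] at h11
      | node a b =>
        simp only [tt, Tm.add.injEq] at h11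
        have h13 : a = X := tt_inj (h11.1.trans h12)
        subst h13
        exact ⟨b, h9⟩
  · rintro ⟨y, hy⟩
    obtain ⟨rest, hrest⟩ := code_refute X y φ₀
    have hys := hFs X y hy
    have hmem : falsum (T.node X y) ∈ theory c κ := by
      refine Or.inr ((hacc _).2 ?_)
      rw [unfalsum_enc]
      exact ⟨rfl, hy⟩
    have hx1 := (T.gn_size (tt X).enc (val 1 pre) hC0).1
    have hx2 := tt_size_ge X
    have hX := T.size_pos X
    have hnum : (encProof (refute (T.node X y) φ₀)).num =
        T.gn (tt X).enc (val 1 pre) * 2 ^ rest.length + val 0 rest := by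
      rw [T.num, gn_eq, hrest, val_append, val_append, val_eq rest, ← gn_eq (tt X).enc]
    have hx0 : T.gn (tt X).enc (val 1 pre) ≠ 0 := (T.gn_size (tt X).enc (val 1 pre) hC0).2
    have hlt := val_lt rest
    have hsz := T.num_size (encProof (refute (T.node X y) φ₀))
    have hrs := refute_size (T.node X y) φ₀
    refine ⟨(encProof (refute (T.node X y) φ₀)).num, ?_,
      (hP.correct c κ e₀ 0 z₀ _).2 ⟨_, rfl, refute_isProof hmem φ₀⟩, ?_⟩
    · have h1 : (encProof (refute (T.node X y) φ₀)).num <
          2 ^ ((encProof (refute (T.node X y) φ₀)).num.size) := Nat.lt_size_self _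
      refine h1.le.trans (Nat.pow_le_pow_right (by omega) ?_)
      rw [hsz, Nat.size_pow]
      simp only [T.size] at hrs
      have h2 : X.size ≤ (T.gn (tt X).enc (val 1 pre)).size := by omega
      have h3 : X.size * (200 + N + 1) ≤ (T.gn (tt X).enc (val 1 pre)).size * (200 + N + 1) :=
        Nat.mul_le_mul_right _ h2
      refine le_trans ?_ h3
      have h5 : N ≤ X.size * N := Nat.le_mul_of_pos_left _ hX
      have h6 : X.size * (200 + N + 1) = 201 * X.size + X.size * N := by ring
      omega
    · -- the tail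
      have hq : ∀ k : ℕ, (2 ^ k / 2).size = k := by
        intro k
        cases k with
        | zero => simp
        | succ k =>
          rw [pow_succ, Nat.mul_div_cancel _ (by omega : 0 < 2), Nat.size_pow]
      refine ⟨2 ^ rest.length / 2, ?_, val 0 rest, ?_, ?_, ?_⟩
      · rw [hnum]
        have h1 : 1 * 2 ^ rest.length ≤ T.gn (tt X).enc (val 1 pre) * 2 ^ rest.length :=
          Nat.mul_le_mul_right _ (Nat.one_le_iff_ne_zero.2 hx0)
        omega
      · rw [hnum]; exact Nat.le_add_left _ _
      · rw [hq]; exact hnum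
      · rw [hq]; exact hlt

end Pool.Agent.PO
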