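import Pool.Agent.Lib_helper19.Classes

/-!
# Proof systems and total search problems

Definitions used in the characterisation of the reflection conjecture.
-/

namespace Pool.Agent.PO

open Pool.Agent.H19

/-- `h` is a proof system for the set `A`: a polynomial-time computable function with range `A`
(`w` is a proof of `h w`). -/
def ProofSystem (A : Set T) (h : T → T) : Prop := PolyTime h ∧ Set.range h = A

/-- The proof system `h` p-simulates `g`: a polynomial-time function maps each `g`-proof to an
`h`-proof of the same element. -/
def PSimulates (h g : T → T) : Prop := ∃ t : T → T, PolyTime t ∧ ∀ w, h (t w) = g w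

/-- The set `A` has a p-optimal proof system. -/
def HasPOptimal (A : Set T) : Prop :=
  ∃ h, ProofSystem A h ∧ ∀ g, ProofSystem A g → PSimulates h g

/-- The set `A` is in coNP. -/
def InCoNP (A : Set T) : Prop := InNP Aᶜ

/-- `y` is a solution of the instance `x` of the search problem given by `f` and `k`. -/
def IsSol (f : T → T) (k : ℕ) (x y : T) : Prop :=
  y.size ≤ (x.size + 2) ^ k ∧ f (T.node x y) ≠ T.leaf

/-- `f` and `k` give a problem in TFNP: solutions are of polynomial size and recognised in
polynomial time, and every instance has a solution. -/
def InTFNP (f : T → T) (k : ℕ) : Prop := PolyTime f ∧ ∀ x, ∃ y, IsSol f k x y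

/-- The search problem `(f', k')` is reducible to `(f, k)`: polynomial-time functions map each
instance `x` of the first to an instance `a x` of the second, and each solution `y` of `a x` to a
solution `b (x, y)` of `x`. -/
def SearchReduces (f' : T → T) (k' : ℕ) (f : T → T) (k : ℕ) : Prop :=
  ∃ a b : T → T, PolyTime a ∧ PolyTime b ∧
    ∀ x y, IsSol f k (a x) y → IsSol f' k' x (b (T.node x y))

/-- `(f, k)` is complete for TFNP. -/
def TFNPComplete (f : T → T) (k : ℕ) : Prop :=
  InTFNP f k ∧ ∀ f' k', InTFNP f' k' → SearchReduces f' k' f k

end Pool.Agent.PO
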