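import Pool.Agent.PO.Defs
import Pool.Agent.Lib_helper19.PolyLib

/-!
# Sets in P have p-optimal proof systems
-/

namespace Pool.Agent.PO

open Pool.Agent.H19

/-- A nonempty set in P has a p-optimal proof system: every element is its own proof. -/
theorem hasPOptimal_of_inP {A : Set T} (hA : A.Nonempty) (hP : InP A) : HasPOptimal A := by
  classical
  obtain ⟨a₀, ha₀⟩ := hA
  obtain ⟨f, hf, hfA⟩ := hP
  have hdec : PolyDec (fun w => w ∈ A) := ⟨f, hf, hfA⟩
  refine ⟨fun w => if w ∈ A then w else a₀, ⟨PolyTime.ifP hdec PolyTime.id (PolyTime.const a₀), ?_⟩,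
    fun g hg => ⟨g, hg.1, fun w => ?_⟩⟩
  · ext y
    constructor
    · rintro ⟨w, rfl⟩
      by_cases hw : w ∈ A
      · simp only [if_pos hw]
        exact hw
      · simp only [if_neg hw]
        exact ha₀
    · intro hy
      exact ⟨y, by simp only [if_pos hy]⟩
  · have : g w ∈ A := by
      rw [← hg.2]
      exact ⟨w, rfl⟩
    simp only [if_pos this]

end Pool.Agent.PO
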