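import Pool.Agent.PO.Fwd2

/-! # The main direction -/

namespace Pool.Agent.PO

open Pool.Agent.H19

/-- The reflection sentence attached to a description `w = ((x, p), n)`. -/
def psi2 (μ : Fm) (fP : T → T) (w : T) : Fm :=
  rfn (decFm (fP (qOf w.left.left).left)) μ w.right.len

/-- Conditions on a description: `p` is an `h`-proof of `x`. -/
def Cond2 (h : T → T) (w : T) : Prop :=
  h w.left.right = w.left.left ∧ (∃ c : Code, (qOf w.left.left).left.left = c.enc) ∧
    (qOf w.left.left).left.right = T.unary (qOf w.left.left).left.right.len ∧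
    13 * w.right.len + 6 ≤ 2 ^ lOf w.left.left

/-- The code `x` is that of an additional axiom. -/
def Acc2 (μ : Fm) (fP h : T → T) (x : T) : Prop :=
  (padF (unfalsum x) (psi2 μ fP (unfalsum x))).enc = x ∧ Cond2 h (unfalsum x)

theorem Acc2_polyDec {μ : Fm} {fP : T → T} (hfP : PolyTime fP) {h : T → T}
    (hh : PolyTime h) : PolyDec (Acc2 μ fP h) := by
  have i := PolyTime.id
  have hw : PolyTime unfalsum := uu_polyTime.comp i.right.left.right.left
  have hq := qOf_polyTime.comp hw.left.left
  have hpsi : PolyTime (fun x => (psi2 μ fP (unfalsum x)).enc) :=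
    rfn_polyTime μ (hfP.comp hq.left) (PolyNat.len hw.right)
  refine (PolyDec.eq (padF_polyTime hw hpsi) i).and ((PolyDec.eq (hh.comp hw.left.right)
    hw.left.left).and ((isCode_polyDec.comp hq.left.left).and
    ((PolyDec.eq hq.left.right (PolyNat.len hq.left.right).unary).and
      (PolyDec.leN (((PolyNat.const 13).mul (PolyNat.len hw.right)).add (PolyNat.const 6)).toN
        (PolyN.pow2 (lOf_polyNat.comp hw.left.left))))))

/-- From a proof system for the super-tally set to a theory that proves the reflection sentences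
of all theories of the class, with proofs computed from proofs of memberships. -/
theorem collapse2 {μ : Fm} {P : Code → ℕ → Fm} (hP : IsFormalisation μ P) {B : Set T}
    (htrue : ∀ (c : Code) (κ : ℕ) (x : T), x ∈ B → (qOf x).left = T.node c.enc (T.unary κ) →
      ∀ n, 13 * n + 6 ≤ 2 ^ lOf x → ∀ v, (rfn (P c κ) μ n).sat stdN v)
    (hmem : ∀ (c : Code) (κ : ℕ), HaltsWithin c κ → InClassT (theory c κ) → ∃ r : T, ∀ b m,
      m + 1 = 2 ^ tc (T.node (T.node c.enc (T.unary κ)) r) * (2 * b + 1) →
      T.unary (2 ^ (2 ^ m)) ∈ B)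
    {h : T → T} (hh : PolyTime h) (hB : ∀ p, h p ∈ B) :
    ∃ S : Set Fm, InClassT S ∧ ∀ (c : Code) (κ : ℕ), HaltsWithin c κ →
      InClassT (theory c κ) → ∃ (N : ℕ → ℕ) (g : T → T), PolyNat (fun x => N x.len) ∧
        PolyTime g ∧ ∀ n, T.unary (N n) ∈ B ∧ ∀ p, h p = T.unary (N n) →
          ∃ π, g (T.node (T.unary n) p) = encProof π ∧ IsProof S π (rfn (P c κ) μ n) := by
  have i := PolyTime.id
  obtain ⟨fP, hfP, hfPc⟩ := hP.poly
  obtain ⟨f, hf, hfA⟩ := Acc2_polyDec (μ := μ) hfP hh
  refine ⟨{φ | φ ∈ S12 ∨ Acc2 μ fP h φ.enc}, ⟨⟨ℕ, stdN, ?_⟩, f, hf, fun φ => ?_⟩, ?_⟩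
  · rintro φ (h0 | ⟨h1, h2, ⟨c, hc⟩, h3, h4⟩) v
    · exact stdN_models φ h0 v
    · have h5 := Fm.enc_inj.1 h1
      rw [← h5]
      intro _
      have hq : (qOf (unfalsum φ.enc).left.left).left =
          T.node c.enc (T.unary (qOf (unfalsum φ.enc).left.left).left.right.len) := by
        rw [← h3, ← hc]
        apply T.eq_node
        intro h
        rw [h, T.left_leaf] at hc
        cases c <;> simp [Code.enc] at hc
      have hx : (unfalsum φ.enc).left.left ∈ B := by rw [← h2]; exact hB _
      have h6 := htrue _ _ _ hx hq _ h4 v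
      have h7 : psi2 μ fP (unfalsum φ.enc) = rfn (P c
          (qOf (unfalsum φ.enc).left.left).left.right.len) μ (unfalsum φ.enc).right.len := by
        rw [psi2]
        conv_lhs => rw [hq, hfPc, decFm_enc]
      rw [h7]
      exact h6
  · rw [← hfA]; rfl
  · intro c κ hc hcons
    obtain ⟨r, hr⟩ := hmem c κ hc hcons
    generalize hadef : tc (T.node (T.node c.enc (T.unary κ)) r) = a at hr
    let s : ℕ → ℕ := fun n => 13 * n + 6
    let N : ℕ → ℕ := fun n => 2 ^ (2 ^ mIdx a (s n))
    have hs : PolyNat (fun x : T => s x.len) :=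
      ((PolyNat.const 13).mul (PolyNat.len i)).add (PolyNat.const 6)
    have hm : PolyNat (fun x : T => mIdx a (s x.len)) := by
      have h1 : PolyNat (fun x : T => (s x.len).size.size) :=
        PolyN.size (PolyNat.toN (PolyN.size hs.toN))
      have h2 := (h1.add (PolyNat.const a)).divPow (a + 1)
      exact ((((PolyNat.const (2 ^ (a + 1))).mul (h2.add (PolyNat.const 1))).add
        (PolyNat.const (2 ^ a))).sub (PolyNat.const 1))
    have hN : PolyNat (fun x : T => N x.len) := by
      refine PolyNat.tower hm ?_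
      obtain ⟨k, hk⟩ : PolyB (fun n => (4 * (13 * n + 6) + 2) ^
          (2 ^ (a + 2 ^ (a + 1) + 2 ^ a + 1))) :=
        (((PolyB.const 4).mul (((PolyB.const 13).mul PolyB.id).add (PolyB.const 6))).add
          (PolyB.const 2)).pow _
      refine ⟨k, fun x => le_trans ?_ (hk x.size)⟩
      refine (tower_mIdx_le a (s x.len)).trans (Nat.pow_le_pow_left ?_ _)
      have := T.len_lt_size x
      simp only [s]; omega
    let w : T → T := fun z => T.node (T.node (T.unary (N z.left.len)) z.right)
      (T.unary z.left.len)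
    have hw : PolyTime w :=
      (((hN.comp i.left).unary).node i.right).node (PolyNat.len i.left).unary
    have hψ : PolyTime (fun z : T => (rfn (decFm (P c κ).enc) μ z.left.len).enc) :=
      rfn_polyTime μ (PolyTime.const _) (PolyNat.len i.left)
    refine ⟨N, fun z => encProof (unpad (w z) (rfn (decFm (P c κ).enc) μ z.left.len)), hN,
      ?_, fun n => ⟨?_, fun v hv => ?_⟩⟩
    · have htw := tt_polyTime.comp hw
      have heq : PolyTime (fun z : T => (Fm.eq (tt (w z)) (tt (w z))).enc) :=
        (PolyTime.const _).node (htw.node htw)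
      exact ((PolyTime.const _).node (padF_polyTime hw hψ)).node
        (((PolyTime.const _).node htw).node (((PolyTime.const _).node
          (heq.node hψ)).node PolyTime.leaf))
    · exact hr _ _ (mIdx_succ a (s n))
    · refine ⟨_, rfl, ?_⟩
      simp only [T.left_node, T.len_unary, decFm_enc]
      apply unpad_isProof
      right
      have hun : unfalsum (padF (w (T.node (T.unary n) v)) (rfn (P c κ) μ n)).enc =
          w (T.node (T.unary n) v) := unfalsum_padF _ _
      have hidx : aOf (T.unary (N n)) = a := aOf_tower (mIdx_succ a (s n))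
      have hq : qOf (T.unary (N n)) = T.node (T.node c.enc (T.unary κ)) r := by
        rw [qOf, hidx, ← hadef, treeOf_tc]
      have hwl : (w (T.node (T.unary n) v)).left.left = T.unary (N n) := by
        simp only [w, T.left_node, T.len_unary]
      have hwl' : (w (T.node (T.unary n) v)).left.right = v := by
        simp only [w, T.left_node, T.right_node]
      have hwr : (w (T.node (T.unary n) v)).right.len = n := by
        simp only [w, T.left_node, T.right_node, T.len_unary]
      refine ⟨?_, ?_⟩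
      · rw [hun, psi2, hwl, hwr, hq, T.left_node, hfPc, decFm_enc]
      · rw [hun]
        refine ⟨?_, ⟨c, by rw [hwl, hq, T.left_node, T.left_node]⟩, by rw [hwl, hq]; simp, ?_⟩
        · rw [hwl, hwl']
          exact hv
        · rw [hwl, hwr, lOf, hidx]
          have h1 : lg (T.unary (N n)) = 2 ^ mIdx a (s n) := lg_tower _
          rw [h1]
          exact (le_pow_mIdx a (s n)).le

/-- The theory presented by the constant program is in the class. -/
theorem exists_inClassT : ∃ (c : Code) (κ : ℕ), HaltsWithin c κ ∧ InClassT (theory c κ) := by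
  have h0 : ∀ x, ¬ Accepts Code.leaf 1 x := by
    rintro x ⟨y, t, h, _, hy⟩
    cases h
    exact hy rfl
  refine ⟨Code.leaf, 1, fun x => ⟨_, _, Eval.leaf x, by simp⟩, ⟨ℕ, stdN, ?_⟩,
    fun _ => T.leaf, PolyTime.leaf, fun φ => ?_⟩
  · rintro φ (h | h) v
    · exact stdN_models φ h v
    · exact absurd h (h0 _)
  · constructor
    · rintro (h | h)
      · exact Or.inl h
      · exact absurd h (h0 _)
    · rintro (h | h)
      · exact Or.inl h
      · exact absurd rfl h

theorem FWD_thm : FWD_stmt := by
  intro μ P hμ hP hCON hTFNP hQ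
  obtain ⟨f, k, hR⟩ := hTFNP
  obtain ⟨D, kD, hD, hD1, hD2⟩ := (sat_npred μ).1 hμ.1
  have i := PolyTime.id
  have hmem : ∀ (c : Code) (κ : ℕ), HaltsWithin c κ → InClassT (theory c κ) → ∃ r : T, ∀ b m,
      m + 1 = 2 ^ tc (T.node (T.node c.enc (T.unary κ)) r) * (2 * b + 1) →
      T.unary (2 ^ (2 ^ m)) ∈ BB μ f k D := fun c κ hc hT => mem_BB hμ.1 hR hD hD1 hc hT
  have hne : (BB μ f k D).Nonempty := by
    obtain ⟨c, κ, hc, hT⟩ := exists_inClassT
    obtain ⟨r, hr⟩ := hmem c κ hc hT
    exact ⟨_, hr 0 (2 ^ tc (T.node (T.node c.enc (T.unary κ)) r) - 1) (by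
      have : 1 ≤ 2 ^ tc (T.node (T.node c.enc (T.unary κ)) r) := Nat.one_le_two_pow
      omega)⟩
  obtain ⟨h, ⟨hh, hrange⟩, hopt⟩ := hCON (BB μ f k D) hne (BB_superTally μ f k D)
    (BB_inCoNP μ hR.1.1 k hD)
  have hB : ∀ p, h p ∈ BB μ f k D := fun p => hrange ▸ Set.mem_range_self p
  obtain ⟨S, hS, hall⟩ := collapse2 hP (B := BB μ f k D)
    (fun c κ x hx hq n hn v => BB_true hμ.2.1 hP hR.1 hD2 hx hq hn v) hmem hh hB
  obtain ⟨c, κ, hc, hT, hno⟩ := hQ S hS
  obtain ⟨N, g, hN, hg, hNg⟩ := hall c κ hc hT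
  -- a proof system with easy proofs of the members needed
  have hG : ProofSystem (BB μ f k D)
      (fun z => tif z.left (h z.right) (T.unary (N z.right.len))) := by
    refine ⟨i.left.tif (hh.comp i.right) (hN.comp i.right).unary, ?_⟩
    ext x
    constructor
    · rintro ⟨z, rfl⟩
      rcases hz : z.left with _ | ⟨l, r⟩
      · simp only [hz, tif_leaf]; exact hB _
      · simp only [hz, tif_node]; exact (hNg _).1
    · intro hx
      rw [← hrange] at hx
      obtain ⟨p, rfl⟩ := hx
      exact ⟨T.node T.leaf p, by simp⟩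
  obtain ⟨t, ht, htG⟩ := hopt _ hG
  refine hno ⟨fun x => g (T.node x (t (T.node (T.node T.leaf T.leaf) x))),
    hg.comp (i.node (ht.comp ((PolyTime.const _).node i))), fun n => ?_⟩
  refine (hNg n).2 _ ?_
  rw [htG]
  simp

end Pool.Agent.PO
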