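import Pool.Agent.PO.Stmts

/-! # The super-tally coNP set attached to a TFNP-complete problem -/

namespace Pool.Agent.PO

open Pool.Agent.H19

theorem InNP.of_npred {R : T → Prop} (h : NPred R) : InNP {x | R x} := by
  obtain ⟨D, k, ⟨f, hf, hfD⟩, h1, h2⟩ := h
  refine ⟨f, k, hf, fun x => ?_⟩
  constructor
  · intro hx
    obtain ⟨w, hw, hd⟩ := h1 x hx
    exact ⟨w, hw, (hfD _).1 hd⟩
  · rintro ⟨w, _, hd⟩
    exact h2 _ _ ((hfD _).2 hd)

theorem two_pow_lOf_le (x : T) : 2 ^ lOf x ≤ x.size := by
  have h1 : lOf x ≤ lg x := Nat.div_le_self _ _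
  have h2 : 2 ^ lOf x ≤ 2 ^ lg x := Nat.pow_le_pow_right (by omega) h1
  have h3 : 2 ^ lg x ≤ x.size := by
    rw [lg]
    by_cases h : x.len = 0
    · rw [h]; simp; exact T.size_pos x
    · have h4 : 0 < x.len.size := Nat.size_pos.2 (Nat.pos_of_ne_zero h)
      have h5 : ¬ x.len.size ≤ x.len.size - 1 := by omega
      rw [Nat.size_le, not_lt] at h5
      exact h5.trans (T.len_lt_size x).le
  exact h2.trans h3

/-- The bad events at the index `x`: a proof `v` in the theory of `x` and a solution `y` of the
instance computed from `v` whose translation is no witness of the sentence proved. -/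
def Bad (μ : Fm) (f : T → T) (k : ℕ) (D : T → Prop) (x v y : T) : Prop :=
  v.size ≤ 2 ^ lOf x ∧
    IsProof (famTh (T.node (qOf x).left.left x)) (decProof v.left)
      (inst3 μ (bn v.right.left) (bn v.right.right.left) (bn v.right.right.right)) ∧
    IsSol f k (simul (T.node (qOf x).right.left.left (T.node v x))) y ∧
    ¬ D (T.node (env3 v.right) (simul (T.node (qOf x).right.left.right (T.node (T.node v y) x))))

/-- The super-tally set. -/
def BB (μ : Fm) (f : T → T) (k : ℕ) (D : T → Prop) : Set T :=
  {x | Tower x ∧ ∀ v y, ¬ Bad μ f k D x v y}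

theorem BB_superTally (μ : Fm) (f : T → T) (k : ℕ) (D : T → Prop) : SuperTally (BB μ f k D) :=
  fun _ hx => hx.1

theorem BB_inCoNP (μ : Fm) {f : T → T} (hf : PolyTime f) (k : ℕ) {D : T → Prop}
    (hD : PolyDec D) : InCoNP (BB μ f k D) := by
  have i := PolyTime.id
  have hI : PolyTime (fun z : T => simul (T.node (qOf z.left).right.left.left
      (T.node z.right.left z.left))) :=
    simul_polyTime.comp ((qOf_polyTime.comp i.left).right.left.left.node
      (i.right.left.node i.left))
  have hW : PolyTime (fun z : T => simul (T.node (qOf z.left).right.left.right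
      (T.node (T.node z.right.left z.right.right) z.left))) :=
    simul_polyTime.comp ((qOf_polyTime.comp i.left).right.left.right.node
      ((i.right.left.node i.right.right).node i.left))
  have h1 : PolyDec (fun z : T => z.right.left.size ≤ 2 ^ lOf z.left) :=
    PolyDec.leN (PolyNat.size i.right.left).toN (PolyN.pow2 (lOf_polyNat.comp i.left))
  have h2 : PolyDec (fun z : T => IsProof (famTh (T.node (qOf z.left).left.left z.left))
      (decProof z.right.left.left) (inst3 μ (bn z.right.left.right.left)
        (bn z.right.left.right.right.left) (bn z.right.left.right.right.right))) := by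
    refine ((isProofP_polyDec famTh_polyDec).comp
      (((qOf_polyTime.comp i.left).left.left.node i.left).node (i.right.left.left.node
        ((inst3_polyTime μ).comp i.right.left.right)))).congr fun z => ?_
    simp only [T.left_node, T.right_node, decFm_enc]
  have h3 : PolyDec (fun z : T => IsSol f k (simul (T.node (qOf z.left).right.left.left
      (T.node z.right.left z.left))) z.right.right) :=
    (PolyDec.le (PolyNat.size i.right.right) (((PolyNat.size hI).add (PolyNat.const 2)).pow k)).and
      (PolyDec.ne_leaf (hf.comp (hI.node i.right.right)))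
  have h4 : PolyDec (fun z : T => D (T.node (env3 z.right.left.right)
      (simul (T.node (qOf z.left).right.left.right
        (T.node (T.node z.right.left z.right.right) z.left))))) :=
    hD.comp ((i.right.left.right.left.node (i.right.left.right.right.left.node
      (i.right.left.right.right.right.node PolyTime.leaf))).node hW)
  have hB : PolyDec (fun z : T => Bad μ f k D z.left z.right.left z.right.right) :=
    h1.and (h2.and (h3.and h4.not))
  obtain ⟨kq, hkq⟩ := qOf_polyTime.size_bound
  obtain ⟨ks, hks⟩ := simul_polyTime.size_bound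
  have hN : NPred (fun x => ¬ Tower x ∨ ∃ v y, Bad μ f k D x v y) := by
    refine (NPred.dec tower_polyDec.not).or ?_
    refine NPred.of (G := fun n => n + (((n + 2) ^ kq + (n + n + 1) + 1 + 2) ^ ks + 2) ^ k + 1)
      hB ?_ ?_ ?_
    · have h5 : PolyB (fun n => (n + 2) ^ kq) := ⟨kq, fun _ => le_rfl⟩
      exact (PolyB.id.add ((((((h5.add ((PolyB.id.add PolyB.id).add (PolyB.const 1))).add
        (PolyB.const 1)).add (PolyB.const 2)).pow ks).add (PolyB.const 2)).pow k)).add
        (PolyB.const 1)
    · rintro x ⟨v, y, hb⟩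
      refine ⟨T.node v y, ?_, hb⟩
      have e1 : v.size ≤ x.size := hb.1.trans (two_pow_lOf_le x)
      have e2 := hb.2.2.1.1
      have e3 := hks (T.node (qOf x).right.left.left (T.node v x))
      have e4 : (qOf x).right.left.left.size ≤ (x.size + 2) ^ kq :=
        ((T.size_left_le _).trans ((T.size_left_le _).trans (T.size_right_le _))).trans (hkq x)
      have e5 : ((T.node (qOf x).right.left.left (T.node v x)).size + 2) ^ ks ≤
          ((x.size + 2) ^ kq + (x.size + x.size + 1) + 1 + 2) ^ ks :=
        Nat.pow_le_pow_left (by simp only [T.size]; omega) _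
      have e6 : ((simul (T.node (qOf x).right.left.left (T.node v x))).size + 2) ^ k ≤
          (((x.size + 2) ^ kq + (x.size + x.size + 1) + 1 + 2) ^ ks + 2) ^ k :=
        Nat.pow_le_pow_left (by omega) _
      simp only [T.size]
      omega
    · intro x w hb
      exact ⟨w.left, w.right, hb⟩
  have := InNP.of_npred hN
  have he : (BB μ f k D)ᶜ = {x | ¬ Tower x ∨ ∃ v y, Bad μ f k D x v y} := by
    ext x
    simp only [BB, Set.mem_compl_iff, Set.mem_ofPred_eq, not_and_or, not_forall, not_not]
  rw [InCoNP, he]
  exact this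

/-- The reflection sentences attached to an index in the set are true. -/
theorem BB_true {μ : Fm} (hμb : μ.fvBelow 3) {P : Code → ℕ → Fm} (hP : IsFormalisation μ P)
    {f : T → T} {k : ℕ} (hR : InTFNP f k) {D : T → Prop}
    (hD : ∀ x w, D (T.node x w) → μ.sat stdN (envOf x))
    {c : Code} {κ : ℕ} {x : T} (hx : x ∈ BB μ f k D)
    (hq : (qOf x).left = T.node c.enc (T.unary κ)) {n : ℕ}
    (hn : 13 * n + 6 ≤ 2 ^ lOf x) (v : ℕ → ℕ) : (rfn (P c κ) μ n).sat stdN v := by
  obtain ⟨⟨m, hm⟩, hgood⟩ := hx
  -- the clock is within the budget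
  have hκ : κ ≤ aOf x := by
    have h1 := treeOf_size (bl (aOf x))
    have h2 := bl_size' (aOf x)
    have h3 : (treeOf (bl (aOf x))).left = T.node c.enc (T.unary κ) := hq
    have h4 := T.size_left_le (treeOf (bl (aOf x)))
    rw [h3] at h4
    have := T.size_pos c.enc
    simp only [T.size, T.size_unary] at h4
    omega
  have hbud : (n + 2) ^ κ ≤ x.len := by
    have hlen : x.len = 2 ^ lg x := by rw [hm, lg_tower, T.len_unary]
    rw [hlen]
    calc (n + 2) ^ κ ≤ (2 ^ lOf x) ^ κ := Nat.pow_le_pow_left (by omega) _
      _ ≤ (2 ^ lOf x) ^ (2 ^ aOf x) := Nat.pow_le_pow_right (by positivity)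
          (hκ.trans Nat.lt_two_pow_self.le)
      _ = 2 ^ (lOf x * 2 ^ aOf x) := by rw [← pow_mul]
      _ ≤ 2 ^ lg x := Nat.pow_le_pow_right (by omega) (Nat.div_mul_le_self _ _)
  intro u z y e
  simp only [Fm.sat, Tm.val, Tm.numeral_val]
  intro h1 h2 h3 h4 h5
  simp only [scons, stdN] at h1 h2 h3 h4
  have h6 : (P c κ).sat stdN (scons e (scons y (scons z (scons u fun _ => 0)))) := by
    refine (Fm.sat_congr_below stdN _ (hP.below c κ) (fun i hi => ?_)).1 h5
    rcases i with _ | _ | _ | _ | i
    · rfl
    · rfl
    · rfl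
    · rfl
    · omega
  obtain ⟨π, hu, hπ⟩ := (hP.correct c κ e y z u).1 h6
  have h7 := T.num_size (encProof π)
  rw [← hu] at h7
  let V : T := T.node (encProof π) (T.node (bl e) (T.node (bl y) (bl z)))
  obtain ⟨s, hs⟩ := hR.2 (simul (T.node (qOf x).right.left.left (T.node V x)))
  have h8 : D (T.node (env3 V.right) (simul (T.node (qOf x).right.left.right
      (T.node (T.node V s) x)))) := by
    by_contra hc
    refine hgood V s ⟨?_, ?_, hs, hc⟩
    · have := bl_size e
      have := bl_size y
      have := bl_size z
      simp only [V, T.size]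
      omega
    · simp only [V, T.left_node, T.right_node, bn_bl, decProof_enc, hq]
      refine Derives.mono hπ fun χ hχ hTh => ?_
      rcases hTh with h | ⟨w, t, ht, htb, hw⟩
      · exact Or.inl h
      · refine Or.inr ?_
        simp only [T.left_node, T.right_node]
        have h9 := hyp_size hχ
        have h10 : (χ.enc.size + 2) ^ κ ≤ (n + 2) ^ κ := Nat.pow_le_pow_left (by omega) _
        have hxu : x = T.unary x.len := by rw [hm, T.len_unary]
        rw [hxu, simul_spec ht (htb.trans (h10.trans hbud))]
        exact hw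
  have h9 := hD _ _ h8
  simp only [V, T.right_node, env3, envOf_node, bn_bl, T.left_node] at h9
  refine (Fm.sat_congr_below stdN μ hμb (fun i hi => ?_)).1 h9
  rcases i with _ | _ | _ | i
  · rfl
  · rfl
  · rfl
  · omega

end Pool.Agent.PO
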