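import Pool.Agent.PO.Fwd1

/-! # The super-tally set contains the indices of all theories of the class -/

namespace Pool.Agent.PO

open Pool.Agent.H19

/-- The search problem attached to a theory: find witnesses of the instances of `μ` it proves. -/
theorem search_of_theory {μ : Fm} (hμ : μ.isSigma = true) {Th : Set Fm} (hTh : InClassT Th)
    (hS : S12 ⊆ Th) {D : T → Prop} {kD : ℕ} (hD : PolyDec D)
    (hD1 : ∀ x, μ.sat stdN (envOf x) → ∃ w : T, w.size ≤ (x.size + 2) ^ kD ∧ D (T.node x w)) :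
    ∃ (f : T → T) (k : ℕ), InTFNP f k ∧ ∀ v s, IsSol f k v s →
      IsProof Th (decProof v.left) (inst3 μ (bn v.right.left) (bn v.right.right.left)
        (bn v.right.right.right)) → D (T.node (env3 v.right) s) := by
  have i := PolyTime.id
  have h1 : PolyDec (fun z : T => IsProof Th (decProof z.left.left)
      (inst3 μ (bn z.left.right.left) (bn z.left.right.right.left)
        (bn z.left.right.right.right))) := by
    refine ((isProof_polyDec (DecTh.of_inClassT hTh)).comp
      (i.left.left.node ((inst3_polyTime μ).comp i.left.right))).congr fun z => ?_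
    simp only [T.left_node, T.right_node, decFm_enc]
  have henv : PolyTime (fun z : T => env3 z.left.right) :=
    i.left.right.left.node (i.left.right.right.left.node
      (i.left.right.right.right.node PolyTime.leaf))
  have h2 : PolyDec (fun z : T => D (T.node (env3 z.left.right) z.right)) :=
    hD.comp (henv.node i.right)
  obtain ⟨f, hf, hfD⟩ := h1.not.or h2
  have henv' : PolyTime (fun z : T => env3 z.right) :=
    i.right.left.node (i.right.right.left.node (i.right.right.right.node PolyTime.leaf))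
  obtain ⟨ke, hke⟩ := henv'.size_bound
  obtain ⟨k, hk⟩ : PolyB (fun n => ((n + 2) ^ ke + 2) ^ kD + 1) :=
    ((PolyB.add ⟨ke, fun _ => le_rfl⟩ (PolyB.const 2)).pow kD).add (PolyB.const 1)
  refine ⟨f, k, ⟨hf, fun v => ?_⟩, fun v s hs hp => ?_⟩
  · by_cases hp : IsProof Th (decProof v.left) (inst3 μ (bn v.right.left) (bn v.right.right.left)
        (bn v.right.right.right))
    · have h3 := inst3_sound hS hTh.1 ((Fm.bdd_of μ).1 hμ) ⟨_, hp⟩
      have h4 : μ.sat stdN (envOf (env3 v.right)) := by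
        simp only [env3, envOf_node, envOf_leaf]; exact h3
      obtain ⟨w, hw, hd⟩ := hD1 _ h4
      refine ⟨w, ?_, (hfD (T.node v w)).1 (Or.inr hd)⟩
      have h5 := hke v
      beta_reduce at h5
      have h6 : ((env3 v.right).size + 2) ^ kD ≤ ((v.size + 2) ^ ke + 2) ^ kD :=
        Nat.pow_le_pow_left (by omega) _
      have h7 := hk v.size
      beta_reduce at h7
      omega
    · exact ⟨T.leaf, Nat.one_le_pow _ _ (by omega), (hfD (T.node v T.leaf)).1 (Or.inl hp)⟩
  · rcases (hfD (T.node v s)).2 hs.2 with h | h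
    · exact absurd hp h
    · exact h

theorem mem_BB {μ : Fm} (hμ : μ.isSigma = true) {f : T → T} {k : ℕ} (hR : TFNPComplete f k)
    {D : T → Prop} {kD : ℕ} (hD : PolyDec D)
    (hD1 : ∀ x, μ.sat stdN (envOf x) → ∃ w : T, w.size ≤ (x.size + 2) ^ kD ∧ D (T.node x w))
    {c : Code} {κ : ℕ} (hc : HaltsWithin c κ) (hT : InClassT (theory c κ)) :
    ∃ r : T, ∀ b m, m + 1 = 2 ^ tc (T.node (T.node c.enc (T.unary κ)) r) * (2 * b + 1) →
      T.unary (2 ^ (2 ^ m)) ∈ BB μ f k D := by
  obtain ⟨f', k', hf', hsol⟩ := search_of_theory hμ hT (fun φ h => Or.inl h) hD hD1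
  obtain ⟨a, b, ⟨ca, ka, ha⟩, ⟨cb, kb, hb⟩, hab⟩ := hR.2 f' k' hf'
  obtain ⟨K, hK⟩ : PolyB (fun n => (21 * n + 2) ^ κ + (n + 2) ^ ka +
      (n + ((n + 2) ^ ka + 2) ^ k + 1 + 2) ^ kb) := by
    have h1 : PolyB (fun n => (n + 2) ^ ka) := ⟨ka, fun _ => le_rfl⟩
    exact (((((PolyB.const 21).mul PolyB.id).add (PolyB.const 2)).pow κ).add h1).add
      ((((PolyB.id.add ((h1.add (PolyB.const 2)).pow k)).add (PolyB.const 1)).add
        (PolyB.const 2)).pow kb)
  refine ⟨T.node (T.node ca.enc cb.enc) (T.unary (K + 2)), fun b' m hm => ?_⟩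
  have hidx := aOf_tower hm
  have hq : qOf (T.unary (2 ^ (2 ^ m))) = T.node (T.node c.enc (T.unary κ))
      (T.node (T.node ca.enc cb.enc) (T.unary (K + 2))) := by
    rw [qOf, hidx, treeOf_tc]
  have hKa : K + 2 ≤ tc (T.node (T.node c.enc (T.unary κ))
      (T.node (T.node ca.enc cb.enc) (T.unary (K + 2)))) := by
    have h1 := le_tc_node (T.node ca.enc cb.enc) (K + 2)
    have h2 : 1 ≤ 2 ^ tc (T.node c.enc (T.unary κ)) := Nat.one_le_two_pow
    rw [tc]
    nlinarith
  have hL : lOf (T.unary (2 ^ (2 ^ m))) = 2 ^ m / 2 ^ tc (T.node (T.node c.enc (T.unary κ))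
      (T.node (T.node ca.enc cb.enc) (T.unary (K + 2)))) := by
    rw [lOf, hidx, lg_tower]
  have hma : tc (T.node (T.node c.enc (T.unary κ))
      (T.node (T.node ca.enc cb.enc) (T.unary (K + 2)))) ≤ m := by
    have h1 : tc (T.node (T.node c.enc (T.unary κ))
      (T.node (T.node ca.enc cb.enc) (T.unary (K + 2)))) < 2 ^ tc (T.node (T.node c.enc
        (T.unary κ)) (T.node (T.node ca.enc cb.enc) (T.unary (K + 2)))) :=
      Nat.lt_two_pow_self
    have h2 : 2 ^ tc (T.node (T.node c.enc (T.unary κ))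
      (T.node (T.node ca.enc cb.enc) (T.unary (K + 2)))) ≤ m + 1 := by
      rw [hm]; exact Nat.le_mul_of_pos_right _ (by omega)
    omega
  generalize tc (T.node (T.node c.enc (T.unary κ))
      (T.node (T.node ca.enc cb.enc) (T.unary (K + 2)))) = A at *
  have hL1 : 1 ≤ 2 ^ m / 2 ^ A := by
    rw [Nat.pow_div hma (by omega)]
    exact Nat.one_le_two_pow
  generalize hLL : 2 ^ m / 2 ^ A = L at *
  have hLm : L * 2 ^ A ≤ 2 ^ m := by rw [← hLL]; exact Nat.div_mul_le_self _ _
  have hKL : ∀ n, n ≤ 2 ^ L → (n + 2) ^ K ≤ 2 ^ (2 ^ m) := by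
    intro n hn
    calc (n + 2) ^ K ≤ (2 ^ (L + 2)) ^ K := by
          apply Nat.pow_le_pow_left
          rw [pow_add]
          have : 1 ≤ 2 ^ L := Nat.one_le_two_pow
          omega
      _ = 2 ^ ((L + 2) * K) := by rw [← pow_mul]
      _ ≤ 2 ^ (2 ^ m) := by
          apply Nat.pow_le_pow_right (by omega)
          refine le_trans ?_ hLm
          have h1 : 3 * K ≤ 2 ^ A := by
            have h2 : 2 ^ (K + 2) ≤ 2 ^ A := Nat.pow_le_pow_right (by omega) hKa
            have h3 : K < 2 ^ K := Nat.lt_two_pow_self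
            rw [pow_add] at h2
            omega
          calc (L + 2) * K ≤ (3 * L) * K := Nat.mul_le_mul_right _ (by omega)
            _ = L * (3 * K) := by ring
            _ ≤ L * 2 ^ A := Nat.mul_le_mul_left _ h1
  refine ⟨⟨m, rfl⟩, fun v y hbad => ?_⟩
  obtain ⟨hv, hpr, hs, hnD⟩ := hbad
  rw [hL] at hv
  rw [hq] at hpr hs hnD
  simp only [T.left_node, T.right_node] at hpr hs hnD
  have hKv := hK v.size
  beta_reduce at hKv
  have hKLv := hKL v.size hv
  -- the simulated programs
  obtain ⟨ta, hta, htab⟩ := ha v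
  rw [simul_spec hta (by omega)] at hs
  have hasz := hta.size_le
  obtain ⟨tb, htb, htbb⟩ := hb (T.node v y)
  have hb1 : ((T.node v y).size + 2) ^ kb ≤ (v.size + ((v.size + 2) ^ ka + 2) ^ k + 1 + 2) ^ kb := by
    have h1 : ((a v).size + 2) ^ k ≤ ((v.size + 2) ^ ka + 2) ^ k :=
      Nat.pow_le_pow_left (by omega) _
    have h2 := hs.1
    exact Nat.pow_le_pow_left (by simp only [T.size]; omega) _
  rw [simul_spec htb (by omega)] at hnD
  refine hnD (hsol v _ (hab v y hs) ?_)
  refine Derives.mono hpr fun χ hχ hTh => ?_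
  rcases hTh with h | h
  · exact Or.inl h
  · right
    simp only [T.left_node, T.right_node] at h
    obtain ⟨w, t, ht, htb⟩ := hc χ.enc
    have h1 := hyp_decProof hχ
    have h2 : v.left.size ≤ v.size := T.size_left_le v
    have h3 : (χ.enc.size + 2) ^ κ ≤ (21 * v.size + 2) ^ κ := Nat.pow_le_pow_left (by omega) _
    rw [simul_spec ht (by omega)] at h
    exact ⟨w, t, ht, htb, h⟩

end Pool.Agent.PO
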