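import Pool.Agent.PO.Stmts

/-!
# Gödel numbers of trees in polynomial time
-/

namespace Pool.Agent.PO

open Pool.Agent.H19

namespace GNaux

theorem app_assoc' (x y z : T) : app (app x y) z = app x (app y z) := by
  induction x with
  | leaf => rfl
  | node a b _ ih => simp only [app_node, ih]

/-- The digits of the description of a tree, the lowest first. -/
def gcode : T → T
  | T.leaf => T.node T.leaf T.leaf
  | T.node l r => app (gcode r) (app (gcode l) (T.node (T.node T.leaf T.leaf) T.leaf))

theorem gcode_size (x : T) : (gcode x).size ≤ 3 * x.size := by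
  induction x with
  | leaf => simp [gcode, T.size]
  | node l r ihl ihr =>
    have h1 := app_size (gcode r) (app (gcode l) (T.node (T.node T.leaf T.leaf) T.leaf))
    have h2 := app_size (gcode l) (T.node (T.node T.leaf T.leaf) T.leaf)
    have h3 : (T.node (T.node T.leaf T.leaf) T.leaf).size = 5 := rfl
    simp only [gcode, T.size] at *
    omega

theorem gcode_polyTime : PolyTime gcode := by
  have i := PolyTime.id
  exact PolyTime₂.binRec₁ (F := gcode) (c := T.node T.leaf T.leaf)
    (comb := fun w => app w.right.right
      (app w.right.left (T.node (T.node T.leaf T.leaf) T.leaf)))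
    (i.right.right.app (i.right.left.app (PolyTime.const _))) rfl (fun _ _ => rfl)
    (G := fun n => 3 * n) ((PolyB.const 3).mul PolyB.id) (fun a b h => by dsimp only; omega)
    gcode_size

theorem bl_two_mul {n : ℕ} (h : n ≠ 0) : bl (2 * n) = T.node T.leaf (bl n) := by
  rw [bl_pos (by omega : 2 * n ≠ 0), show 2 * n / 2 = n by omega]
  simp [bit]

theorem bl_two_mul_add_one (n : ℕ) : bl (2 * n + 1) = T.node (T.node T.leaf T.leaf) (bl n) := by
  rw [bl_pos (by omega : 2 * n + 1 ≠ 0), show (2 * n + 1) / 2 = n by omega]
  simp [bit]

theorem bl_gn (x : T) : ∀ n : ℕ, n ≠ 0 → bl (T.gn x n) = app (gcode x) (bl n) := by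
  induction x with
  | leaf =>
    intro n hn
    simp only [T.gn, gcode, app_node, app_leaf]
    exact bl_two_mul hn
  | node l r ihl ihr =>
    intro n hn
    have h1 : T.gn l (2 * n + 1) ≠ 0 := (T.gn_size l (2 * n + 1) (by omega)).2
    simp only [T.gn, gcode]
    rw [ihr _ h1, ihl _ (by omega), bl_two_mul_add_one, app_assoc', app_assoc', app_node,
      app_leaf]

end GNaux

/-- A function on trees given by its Gödel number after a fixed prefix is `PolyN`. -/
theorem GN_thm : GN_stmt := by
  intro g C hC hg
  have h : PolyTime (fun x => app (GNaux.gcode (g x)) (bl C)) :=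
    (GNaux.gcode_polyTime.comp hg).app (PolyTime.const _)
  exact h.congr fun x => (GNaux.bl_gn (g x) C hC).symm

end Pool.Agent.PO
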