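import Pool.Agent.PO.Stmts
import Pool.Agent.Lib_helper19.Recursion
import Pool.Agent.Lib_helper19.Reflection

/-!
# Programs with a parameter and clocks
-/

namespace Pool.Agent.PO

open Pool.Agent.H19

/-- The clock bound: `(n + q + 1) ^ k + (n + q) ≤ n ^ ((k + 1) * (q + 3) + 1)` for `n ≥ 2`. -/
theorem param_bound (n q k : ℕ) (hn : 2 ≤ n) :
    (n + q + 1) ^ k + (n + q) ≤ n ^ ((k + 1) * (q + 3) + 1) := by
  have h1 : q + 2 ≤ n ^ (q + 1) := by
    have h2 : q + 2 ≤ 2 ^ (q + 1) := by
      have : ∀ j : ℕ, j + 2 ≤ 2 ^ (j + 1) := by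
        intro j
        induction j with
        | zero => norm_num
        | succ j ih => rw [pow_succ]; omega
      exact this q
    exact h2.trans (Nat.pow_le_pow_left hn _)
  have h2 : n + q + 1 ≤ n ^ (q + 2) := by
    calc n + q + 1 ≤ (q + 2) * n := by nlinarith
      _ ≤ n ^ (q + 1) * n := Nat.mul_le_mul_right _ h1
      _ = n ^ (q + 2) := by rw [← pow_succ]
  have h3 : (n + q + 1) ^ k ≤ n ^ ((k + 1) * (q + 3)) := by
    calc (n + q + 1) ^ k ≤ (n ^ (q + 2)) ^ k := Nat.pow_le_pow_left h2 _
      _ = n ^ ((q + 2) * k) := by rw [← pow_mul]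
      _ ≤ n ^ ((k + 1) * (q + 3)) := Nat.pow_le_pow_right (by omega) (by nlinarith)
  have h4 : n + q ≤ n ^ ((k + 1) * (q + 3)) := by
    calc n + q ≤ n ^ (q + 2) := by omega
      _ ≤ n ^ ((k + 1) * (q + 3)) := Nat.pow_le_pow_right (by omega) (by nlinarith)
  rw [pow_succ]
  nlinarith

theorem PARAM_thm : PARAM_stmt := by
  intro f hf
  obtain ⟨c0, k, h⟩ := hf
  have i := PolyTime.id
  refine ⟨fun q => Code.comp c0 (Code.pair (Code.const q) Code.id),
    fun q => (k + 1) * (q.size + 3) + 1, ?_, ?_⟩
  · have h1 : PolyTime (fun q : T => T.node (T.node (T.unary 5) (T.node c0.enc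
        (T.node (T.unary 4) (T.node (qt q) Code.id.enc)))) (T.unary ((k + 1) * (q.size + 3) + 1))) :=
      ((PolyTime.const _).node ((PolyTime.const _).node ((PolyTime.const _).node
        (qt_polyTime.node (PolyTime.const _))))).node
        (((PolyNat.const (k + 1)).mul ((PolyNat.size i).add (PolyNat.const 3))).add
          (PolyNat.const 1))
    have h2 : (fun q : T => T.node (Code.comp c0 (Code.pair (Code.const q) Code.id)).enc
        (T.unary ((k + 1) * (q.size + 3) + 1))) = (fun q : T => T.node (T.node (T.unary 5)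
        (T.node c0.enc (T.node (T.unary 4) (T.node (qt q) Code.id.enc))))
        (T.unary ((k + 1) * (q.size + 3) + 1))) := by
      funext q
      simp only [Code.enc, qt_eq]
    rw [h2]
    exact h1
  · intro q
    have key : ∀ x : T, ∃ t : ℕ,
        Eval (Code.comp c0 (Code.pair (Code.const q) Code.id)) x (f (T.node q x)) t ∧
          t ≤ (x.size + 2) ^ ((k + 1) * (q.size + 3) + 1) := by
      intro x
      obtain ⟨t, ht, hb⟩ := h (T.node q x)
      refine ⟨_, Eval.comp (Eval.pair (Eval.const x q) (Eval.id x)) ht, ?_⟩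
      have hx := T.size_pos x
      have h1 := param_bound (x.size + 2) q.size k (by omega)
      simp only [T.size] at hb
      have h2 : q.size + x.size + 1 + 2 = x.size + 2 + q.size + 1 := by omega
      rw [h2] at hb
      omega
    constructor
    · intro x
      obtain ⟨t, ht, hb⟩ := key x
      exact ⟨_, t, ht, hb⟩
    · intro x
      obtain ⟨t, ht, hb⟩ := key x
      exact accepts_iff ht hb

end Pool.Agent.PO
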