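import Pool.Agent.PO.Stmts

/-!
# If the reflection conjecture fails, TFNP has a complete problem
-/

namespace Pool.Agent.PO

open Pool.Agent.H19

namespace Tf

/-- The relation which is verified by programs: for `X = ((a, w), B)` the program coded by `a`
accepts `(w, y)` within the budget `B`. -/
def relF (X y : T) : Prop :=
  y.size ≤ X.right.len ∧
    (simulF (T.node X.left.left (T.node (T.node X.left.right y) X.right))).right ≠ T.leaf

theorem relF_polyDec (h : PolyTime simulF) : PolyDec (fun z => relF z.left z.right) := by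
  have i := PolyTime.id
  exact (PolyDec.le (PolyNat.size i.right) (PolyNat.len i.left.right)).and
    (PolyDec.ne_leaf (h.comp (i.left.left.left.node ((i.left.left.right.node i.right).node
      i.left.right))).right)

theorem relF_size {X y : T} (h : relF X y) : y.size ≤ X.size :=
  h.1.trans ((T.len_lt_size _).le.trans (T.size_right_le X))

/-- The instance attached to the parameter `q = (a, d)` and the description
`v = (w, (B, B'))`. -/
def Xof (q v : T) : T := T.node (T.node q.left v.left) v.right.left

/-- The bound in the description `v` is the one computed by the program coded by `d`. -/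
def okq (q v : T) : Prop :=
  simulF (T.node q.right (T.node v.left v.right.right)) = T.node T.leaf v.right.left

section

variable (μ : Fm) (e : ℕ) (nx nz : T → ℕ)

/-- The instance of the universal formula. -/
def psi (q v : T) : Fm := inst3 μ e (nx (Xof q v)) (nz (Xof q v))

/-- The code `x` is that of an additional axiom, for the parameter `q`. -/
def Acc (q x : T) : Prop :=
  (padF (unfalsum x) (psi μ e nx nz q (unfalsum x))).enc = x ∧ okq q (unfalsum x)

/-- The length for which reflection is used. -/
def nn (q v : T) : ℕ :=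
  e.size + (nx (Xof q v)).size + (nz (Xof q v)).size +
    ((encProof (unpad v (psi μ e nx nz q v))).size + 1)

variable {μ e nx nz}

theorem Xof_polyTime {gq gv : T → T} (hq : PolyTime gq) (hv : PolyTime gv) :
    PolyTime (fun z => Xof (gq z) (gv z)) := (hq.left.node hv.left).node hv.right.left

theorem psi_polyTime (hnx : PolyN nx) (hnz : PolyN nz) {gq gv : T → T} (hq : PolyTime gq)
    (hv : PolyTime gv) : PolyTime (fun z => (psi μ e nx nz (gq z) (gv z)).enc) := by
  have hX := Xof_polyTime hq hv
  refine ((inst3_polyTime μ).comp ((PolyTime.const (bl e)).node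
    ((PolyN.comp hnx hX).node (PolyN.comp hnz hX)))).congr fun z => ?_
  simp only [T.left_node, T.right_node, bn_bl]
  rfl

theorem okq_polyDec (h : PolyTime simulF) {gq gv : T → T} (hq : PolyTime gq)
    (hv : PolyTime gv) : PolyDec (fun z => okq (gq z) (gv z)) :=
  PolyDec.eq (h.comp (hq.right.node (hv.left.node hv.right.right)))
    (PolyTime.leaf.node hv.right.left)

theorem Acc_polyDec (h : PolyTime simulF) (hnx : PolyN nx) (hnz : PolyN nz) :
    PolyDec (fun z => Acc μ e nx nz z.left z.right) := by
  have i := PolyTime.id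
  have hw : PolyTime (fun z : T => unfalsum z.right) :=
    uu_polyTime.comp i.right.right.left.right.left
  exact (PolyDec.eq (padF_polyTime hw (psi_polyTime hnx hnz i.left hw)) i.right).and
    (okq_polyDec h i.left hw)

theorem unpad_polyTime (hnx : PolyN nx) (hnz : PolyN nz) {gq gv : T → T} (hq : PolyTime gq)
    (hv : PolyTime gv) :
    PolyTime (fun z => encProof (unpad (gv z) (psi μ e nx nz (gq z) (gv z)))) := by
  have hψ : PolyTime (fun z => (psi μ e nx nz (gq z) (gv z)).enc) := psi_polyTime hnx hnz hq hv
  have htw := tt_polyTime.comp hv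
  have heq : PolyTime (fun z : T => (Fm.eq (tt (gv z)) (tt (gv z))).enc) :=
    (PolyTime.const _).node (htw.node htw)
  exact ((PolyTime.const _).node (padF_polyTime hv hψ)).node
    (((PolyTime.const _).node htw).node (((PolyTime.const _).node
      (heq.node hψ)).node PolyTime.leaf))

theorem nn_polyNat (hnx : PolyN nx) (hnz : PolyN nz) {gq gv : T → T} (hq : PolyTime gq)
    (hv : PolyTime gv) : PolyNat (fun z => nn μ e nx nz (gq z) (gv z)) := by
  have hX := Xof_polyTime hq hv
  exact (((PolyNat.const _).add (PolyN.comp hnx hX).size).add (PolyN.comp hnz hX).size).add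
    ((PolyNat.size (unpad_polyTime hnx hnz hq hv)).add (PolyNat.const 1))

theorem vec_congr (hμ : μ.fvBelow 3) (x z u : ℕ) :
    μ.sat stdN (vec4 e x z u) ↔ μ.sat stdN (vec3 e x z) := by
  refine Fm.sat_congr_below stdN μ hμ (fun i hi => ?_)
  rcases i with _ | _ | _ | i
  · rfl
  · rfl
  · rfl
  · omega

theorem inst_true (hμ : μ.fvBelow 3) {x z : ℕ} (h : μ.sat stdN (vec3 e x z)) (v : ℕ → ℕ) :
    (inst3 μ e x z).sat stdN v := by
  rw [inst3_sat]
  refine (Fm.sat_congr_below stdN μ hμ (fun i hi => ?_)).1 h
  rcases i with _ | _ | _ | i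
  · rfl
  · rfl
  · rfl
  · omega

end

end Tf

open Tf

theorem TFNP_thm (h1 : SIMF_stmt) (h2 : PARAM_stmt) (h3 : UNIV_stmt) : TFNP_stmt := by
  intro μ P hμ hP hQ
  obtain ⟨hsim, hs2, hs3⟩ := h1
  obtain ⟨e, nx, nz, hnx, hnz, hX⟩ := h3 μ P hμ hP relF (relF_polyDec hsim)
    (fun X y h => relF_size h)
  obtain ⟨f₀, hf₀, hf₀A⟩ := Acc_polyDec (μ := μ) (e := e) hsim hnx hnz
  obtain ⟨pc, pk, hpq, hpcl⟩ := h2 f₀ hf₀
  -- the theory of the failure of the conjecture
  simp only [ReflectionConjecture, not_forall, not_exists, not_and, not_not] at hQ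
  obtain ⟨S, hS, hSall⟩ := hQ
  obtain ⟨fP, hfP, hfPc⟩ := hP.poly
  have hth : ∀ (q : T) (φ : Fm), φ ∈ theory (pc q) (pk q) ↔
      φ ∈ S12 ∨ Acc μ e nx nz q φ.enc := by
    intro q φ
    have h4 := (hpcl q).2 φ.enc
    have h5 := hf₀A (T.node q φ.enc)
    simp only [T.left_node, T.right_node] at h5
    rw [h5, ← h4]
    rfl
  have i := PolyTime.id
  have hSS : S12 ⊆ S := by
    obtain ⟨-, f, -, hf⟩ := hS
    exact fun φ hφ => (hf φ).2 (Or.inl hφ)
  -- the condition
  let C : T → Prop := fun I => okq I.left I.right.left ∧
    IsProof S (decProof I.right.right)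
      (rfn (P (pc I.left) (pk I.left)) μ (nn μ e nx nz I.left I.right.left))
  have hC : PolyDec C := by
    refine (okq_polyDec hsim i.left i.right.left).and ?_
    have hr := rfn_polyTime μ (hfP.comp (hpq.comp i.left))
      (nn_polyNat (μ := μ) (e := e) hnx hnz i.left i.right.left)
    refine ((isProof_polyDec (DecTh.of_inClassT hS)).comp
      (i.right.right.node hr)).congr fun I => ?_
    simp only [T.left_node, T.right_node, decFm_enc, hfPc]
  have hsol : PolyDec (fun z : T => ¬ C z.left ∨
      relF (Xof z.left.left z.left.right.left) z.right) := by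
    refine (hC.comp i.left).not.or ?_
    refine ((relF_polyDec hsim).comp
      ((Xof_polyTime i.left.left i.left.right.left).node i.right)).congr fun z => ?_
    simp only [T.left_node, T.right_node]
  obtain ⟨f, hf, hfs⟩ := hsol
  refine ⟨f, 1, ⟨hf, fun I => ?_⟩, ?_⟩
  · -- totality
    by_cases hCI : C I
    · obtain ⟨hok, hpr⟩ := hCI
      set q := I.left with hq
      set v := I.right.left with hv
      have hax : padF v (psi μ e nx nz q v) ∈ theory (pc q) (pk q) := by
        rw [hth]
        right
        refine ⟨?_, ?_⟩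
        · rw [unfalsum_padF]
        · rw [unfalsum_padF]
          exact hok
      have hpf := unpad_isProof hax
      have hsat := (hP.correct (pc q) (pk q) e (nx (Xof q v)) (nz (Xof q v))
        (encProof (unpad v (psi μ e nx nz q v))).num).2 ⟨_, rfl, hpf⟩
      have hμt := rfn_sound hSS hS.1 ((Fm.bdd_of _).1 (hP.delta _ _).1)
        ((Fm.bdd_of μ).1 hμ.1) ⟨_, hpr⟩ (e := e) (x := nx (Xof q v)) (z := nz (Xof q v))
        (u := (encProof (unpad v (psi μ e nx nz q v))).num)
        (by simp only [nn]; omega) (by simp only [nn]; omega) (by simp only [nn]; omega)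
        (by rw [T.num_size]; simp only [nn]; omega) hsat
      rw [vec_congr hμ.2.1, hX] at hμt
      obtain ⟨y, hy⟩ := hμt
      refine ⟨y, ?_, (hfs _).1 (Or.inr hy)⟩
      have h4 : y.size ≤ v.right.left.len := hy.1
      have h5 := T.len_lt_size v.right.left
      have h6 := T.size_left_le v.right
      have h7 := T.size_right_le v
      have h8 : v.size ≤ I.right.size := T.size_left_le I.right
      have h9 := T.size_right_le I
      rw [pow_one]
      omega
    · refine ⟨T.leaf, ?_, (hfs _).1 (Or.inl hCI)⟩
      rw [pow_one]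
      simp only [T.size]
      omega
  · -- completeness
    rintro f' k' ⟨hf', htot⟩
    have hf'' : PolyTime (fun z : T => if z.right.size ≤ (z.left.size + 2) ^ k' then
        f' (T.node z.left z.right) else T.leaf) := by
      refine (PolyTime.ifP (PolyDec.le (PolyNat.size i.right) (((PolyNat.size i.left).add
        (PolyNat.const 2)).pow k')) (hf'.comp (i.left.node i.right)) PolyTime.leaf).congr
        fun z => ?_
      by_cases h : z.right.size ≤ (z.left.size + 2) ^ k' <;> simp [h]
    obtain ⟨a, ka, ha⟩ := hf''
    obtain ⟨K, hK⟩ : PolyB (fun n => (n + 2) ^ k' + (n + (n + 2) ^ k' + 1 + 2) ^ ka) :=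
      PolyB.add ⟨k', fun _ => le_rfl⟩ ((((PolyB.id.add ⟨k', fun _ => le_rfl⟩).add
        (PolyB.const 1)).add (PolyB.const 2)).pow ka)
    have hd : PolyTime (fun w : T => T.unary ((w.size + 2) ^ K)) :=
      ((PolyNat.size i).add (PolyNat.const 2)).pow K
    obtain ⟨d, kd, hdE⟩ := hd
    have hd : PolyTime (fun w : T => T.unary ((w.size + 2) ^ K)) :=
      ((PolyNat.size i).add (PolyNat.const 2)).pow K
    have hclk : PolyTime (fun w : T => T.unary ((w.size + 2) ^ kd)) :=
      ((PolyNat.size i).add (PolyNat.const 2)).pow kd
    -- facts on the two programs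
    have hdB : ∀ v : T, okq (T.node a.enc d.enc) v →
        v.right.left = T.unary ((v.left.size + 2) ^ K) := by
      intro v hv
      obtain ⟨t, ht, -⟩ := hdE v.left
      rcases hs3 d v.left _ v.right.right t ht with h4 | h4
      · have h5 : T.leaf = T.node T.leaf v.right.left := h4.symm.trans hv
        cases h5
      · have h5 : T.node T.leaf _ = T.node T.leaf v.right.left := h4.symm.trans hv
        injection h5 with _ h6
        exact h6.symm
    have htrue : ∀ w : T, ∃ y, relF (T.node (T.node a.enc w) (T.unary ((w.size + 2) ^ K))) y := by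
      intro w
      obtain ⟨y, hy, hfy⟩ := htot w
      have hKw := hK w.size
      beta_reduce at hKw
      refine ⟨y, ?_, ?_⟩
      · simp only [T.right_node, T.len_unary]
        omega
      · obtain ⟨t, ht, htb⟩ := ha (T.node w y)
        have h4 : ((T.node w y).size + 2) ^ ka ≤ (w.size + (w.size + 2) ^ k' + 1 + 2) ^ ka :=
          Nat.pow_le_pow_left (by simp only [T.size]; omega) _
        simp only [T.left_node, T.right_node]
        rw [hs2 a _ _ t _ ht (by omega)]
        simp only [T.left_node, T.right_node, hy, if_true]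
        exact hfy
    have hclass : InClassT (theory (pc (T.node a.enc d.enc)) (pk (T.node a.enc d.enc))) := by
      refine ⟨⟨ℕ, stdN, ?_⟩, fun x => f₀ (T.node (T.node a.enc d.enc) x),
        hf₀.comp ((PolyTime.const _).node i), fun φ => ?_⟩
      · intro φ hφ v
        rcases (hth _ φ).1 hφ with h4 | ⟨h4, h5⟩
        · exact stdN_models φ h4 v
        · have h6 := Fm.enc_inj.1 h4
          rw [← h6]
          intro _
          refine inst_true hμ.2.1 ?_ v
          rw [hX]
          obtain ⟨y, hy⟩ := htrue (unfalsum φ.enc).left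
          refine ⟨y, ?_⟩
          have h7 := hdB _ h5
          rw [Xof, h7]
          exact hy
      · rw [hth, ← hf₀A]
        simp only [T.left_node, T.right_node]
    obtain ⟨fπ, hfπ, hfπs⟩ := hSall (pc (T.node a.enc d.enc)) (pk (T.node a.enc d.enc))
      (hpcl _).1 hclass
    -- the description attached to an instance
    let dv : T → T := fun w => T.node w (T.node (T.unary ((w.size + 2) ^ K))
      (T.unary ((w.size + 2) ^ kd)))
    have hdv : PolyTime dv := i.node (hd.node hclk)
    have hq : PolyTime (fun _ : T => T.node a.enc d.enc) := PolyTime.const _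
    refine ⟨fun w => T.node (T.node a.enc d.enc) (T.node (dv w)
      (fπ (T.unary (nn μ e nx nz (T.node a.enc d.enc) (dv w))))), T.right,
      hq.node (hdv.node (hfπ.comp (nn_polyNat hnx hnz hq hdv))), PolyTime.right', ?_⟩
    intro x y hxy
    have h4 := (hfs _).2 hxy.2
    simp only [T.left_node, T.right_node] at h4
    have hCx : C (T.node (T.node a.enc d.enc) (T.node (dv x)
        (fπ (T.unary (nn μ e nx nz (T.node a.enc d.enc) (dv x)))))) := by
      obtain ⟨π, hπ, hπp⟩ := hfπs (nn μ e nx nz (T.node a.enc d.enc) (dv x))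
      refine ⟨?_, ?_⟩
      · obtain ⟨t, ht, htb⟩ := hdE x
        have h5 := hs2 d x _ t _ ht htb
        exact h5
      · simp only [T.left_node, T.right_node]
        rw [hπ, decProof_enc]
        exact hπp
    rcases h4 with h4 | ⟨h4, h5⟩
    · exact absurd hCx h4
    · obtain ⟨t, ht, -⟩ := ha (T.node x y)
      simp only [Xof, dv, T.left_node, T.right_node] at h5
      have h6 := hs3 a (T.node x y) _ (T.unary ((x.size + 2) ^ K)) t ht
      simp only [T.left_node, T.right_node] at h6
      simp only [IsSol, T.right_node]
      rcases h6 with h6 | h6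
      · rw [h6] at h5
        exact absurd rfl h5
      · rw [h6, T.right_node] at h5
        by_cases hyy : y.size ≤ (x.size + 2) ^ k'
        · rw [if_pos hyy] at h5
          exact ⟨hyy, h5⟩
        · rw [if_neg hyy] at h5
          exact absurd rfl h5

end Pool.Agent.PO
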