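import Pool.Agent.PO.Stmts2
import Pool.Agent.PO.Tfnp

/-!
# If the reflection conjecture fails, all sets in `Π^p_2` have p-optimal proof systems
-/

namespace Pool.Agent.PO

open Pool.Agent.H19

namespace P2

/-- The clocked run described by `s = (a, (w, B))`. -/
def osim (s : T) : T := simulF (T.node s.left (T.node s.right.left s.right.right))

/-- The relation: for `X = (s, (y, C))`, the tree `z` is small and a witness for the output of the
run `s` and for `y`. -/
def relF (f : T → T) (X z : T) : Prop :=
  z.size ≤ X.right.right.len ∧ f (T.node (osim X.left).right (T.node X.right.left z)) ≠ T.leaf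

theorem osim_polyTime (h : PolyTime simulF) {g : T → T} (hg : PolyTime g) :
    PolyTime (fun z => osim (g z)) := h.comp (hg.left.node (hg.right.left.node hg.right.right))

theorem relF_polyDec (h : PolyTime simulF) {f : T → T} (hf : PolyTime f) :
    PolyDec (fun z => relF f z.left z.right) := by
  have i := PolyTime.id
  exact (PolyDec.le (PolyNat.size i.right) (PolyNat.len i.left.right.right)).and
    (PolyDec.ne_leaf (hf.comp ((osim_polyTime h i.left.left).right.node
      (i.left.right.left.node i.right))))

theorem relF_size {f : T → T} {X z : T} (h : relF f X z) : z.size ≤ X.size :=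
  h.1.trans ((T.len_lt_size _).le.trans ((T.size_right_le _).trans (T.size_right_le X)))

/-- The bound for the sizes. -/
def bnd (k : ℕ) (s : T) : ℕ := ((osim s).right.size + 2) ^ k

/-- The instance attached to the parameter `a` and the description `v = (u, y)`. -/
def Xof (k : ℕ) (a v : T) : T :=
  T.node (T.node a v.left) (T.node v.right (T.unary (bnd k (T.node a v.left))))

/-- The run halts and `y` is small. -/
def okq (k : ℕ) (a v : T) : Prop :=
  osim (T.node a v.left) ≠ T.leaf ∧ v.right.size ≤ bnd k (T.node a v.left)

theorem bnd_polyNat (h : PolyTime simulF) (k : ℕ) {g : T → T} (hg : PolyTime g) :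
    PolyNat (fun z => bnd k (g z)) :=
  ((PolyNat.size (osim_polyTime h hg).right).add (PolyNat.const 2)).pow k

theorem Xof_polyTime (h : PolyTime simulF) (k : ℕ) {ga gv : T → T} (ha : PolyTime ga)
    (hv : PolyTime gv) : PolyTime (fun z => Xof k (ga z) (gv z)) :=
  (ha.node hv.left).node (hv.right.node (bnd_polyNat h k (ha.node hv.left)))

theorem okq_polyDec (h : PolyTime simulF) (k : ℕ) {ga gv : T → T} (ha : PolyTime ga)
    (hv : PolyTime gv) : PolyDec (fun z => okq k (ga z) (gv z)) :=
  (PolyDec.ne_leaf (osim_polyTime h (ha.node hv.left))).and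
    (PolyDec.le (PolyNat.size hv.right) (bnd_polyNat h k (ha.node hv.left)))

section

variable (k : ℕ) (μ : Fm) (e : ℕ) (nx nz : T → ℕ)

/-- The instance of the universal formula. -/
def psi (a v : T) : Fm := inst3 μ e (nx (Xof k a v)) (nz (Xof k a v))

/-- The code `x` is that of an additional axiom, for the parameter `a`. -/
def Acc (a x : T) : Prop :=
  (padF (unfalsum x) (psi k μ e nx nz a (unfalsum x))).enc = x ∧ okq k a (unfalsum x)

/-- The length for which reflection is needed for the description `v`. -/
def nn (a v : T) : ℕ :=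
  e.size + (nx (Xof k a v)).size + (nz (Xof k a v)).size +
    ((encProof (unpad v (psi k μ e nx nz a v))).size + 1)

variable {k μ e nx nz}

theorem psi_polyTime (h : PolyTime simulF) (hnx : PolyN nx) (hnz : PolyN nz) {ga gv : T → T}
    (ha : PolyTime ga) (hv : PolyTime gv) :
    PolyTime (fun z => (psi k μ e nx nz (ga z) (gv z)).enc) := by
  have hX := Xof_polyTime h k ha hv
  refine ((inst3_polyTime μ).comp ((PolyTime.const (bl e)).node
    ((PolyN.comp hnx hX).node (PolyN.comp hnz hX)))).congr fun z => ?_
  simp only [T.left_node, T.right_node, bn_bl]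
  rfl

theorem Acc_polyDec (h : PolyTime simulF) (hnx : PolyN nx) (hnz : PolyN nz) :
    PolyDec (fun z => Acc k μ e nx nz z.left z.right) := by
  have i := PolyTime.id
  have hw : PolyTime (fun z : T => unfalsum z.right) :=
    uu_polyTime.comp i.right.right.left.right.left
  exact (PolyDec.eq (padF_polyTime hw (psi_polyTime h hnx hnz i.left hw)) i.right).and
    (okq_polyDec h k i.left hw)

theorem unpad_polyTime (h : PolyTime simulF) (hnx : PolyN nx) (hnz : PolyN nz) {ga gv : T → T}
    (ha : PolyTime ga) (hv : PolyTime gv) :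
    PolyTime (fun z => encProof (unpad (gv z) (psi k μ e nx nz (ga z) (gv z)))) := by
  have hψ : PolyTime (fun z => (psi k μ e nx nz (ga z) (gv z)).enc) :=
    psi_polyTime h hnx hnz ha hv
  have htw := tt_polyTime.comp hv
  have heq : PolyTime (fun z : T => (Fm.eq (tt (gv z)) (tt (gv z))).enc) :=
    (PolyTime.const _).node (htw.node htw)
  exact ((PolyTime.const _).node (padF_polyTime hv hψ)).node
    (((PolyTime.const _).node htw).node (((PolyTime.const _).node
      (heq.node hψ)).node PolyTime.leaf))

theorem nn_polyNat (h : PolyTime simulF) (hnx : PolyN nx) (hnz : PolyN nz) {ga gv : T → T}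
    (ha : PolyTime ga) (hv : PolyTime gv) : PolyNat (fun z => nn k μ e nx nz (ga z) (gv z)) := by
  have hX := Xof_polyTime h k ha hv
  exact (((PolyNat.const _).add (PolyN.comp hnx hX).size).add (PolyN.comp hnz hX).size).add
    ((PolyNat.size (unpad_polyTime h hnx hnz ha hv)).add (PolyNat.const 1))

/-- A polynomial bound for the lengths needed for all small `y`. -/
theorem exists_len (h : PolyTime simulF) (hnx : PolyN nx) (hnz : PolyN nz) :
    ∃ M : T → ℕ, PolyNat M ∧ ∀ a u y : T, y.size ≤ bnd k (T.node a u) →
      nn k μ e nx nz a (T.node u y) ≤ M (T.node a u) := by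
  have i := PolyTime.id
  have h1 : PolyTime (fun z : T => T.unary (nn k μ e nx nz z.left.left
      (T.node z.left.right z.right))) :=
    nn_polyNat h hnx hnz i.left.left (i.left.right.node i.right)
  obtain ⟨K, hK⟩ := h1.size_bound
  refine ⟨fun s => (s.size + bnd k s + 3) ^ K,
    (((PolyNat.size i).add (bnd_polyNat h k i)).add (PolyNat.const 3)).pow K, ?_⟩
  intro a u y hy
  have h2 := hK (T.node (T.node a u) y)
  simp only [T.left_node, T.right_node, T.size_unary] at h2
  have h3 : ((T.node (T.node a u) y).size + 2) ^ K ≤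
      ((T.node a u).size + bnd k (T.node a u) + 3) ^ K := by
    refine Nat.pow_le_pow_left ?_ K
    have h4 : (T.node (T.node a u) y).size = (T.node a u).size + y.size + 1 := rfl
    omega
  change nn k μ e nx nz a (T.node u y) ≤ ((T.node a u).size + bnd k (T.node a u) + 3) ^ K
  omega

end

end P2

open P2

theorem PI2_thm (h1 : SIMF_stmt) (h2 : PARAM_stmt) (h3 : UNIV_stmt) : PI2_stmt := by
  intro μ P hμ hP hQ A hA hA2
  obtain ⟨f, k, hf, hfA⟩ := hA2
  obtain ⟨l0, hl0⟩ := hA
  obtain ⟨hsim, hs2, hs3⟩ := h1
  obtain ⟨e, nx, nz, hnx, hnz, hX⟩ := h3 μ P hμ hP (relF f) (relF_polyDec hsim hf)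
    (fun X y h => relF_size h)
  obtain ⟨f₀, hf₀, hf₀A⟩ := Acc_polyDec (k := k) (μ := μ) (e := e) hsim hnx hnz
  obtain ⟨pc, pk, hpq, hpcl⟩ := h2 f₀ hf₀
  obtain ⟨M, hM, hMb⟩ := exists_len (k := k) (μ := μ) (e := e) hsim hnx hnz
  -- the theory of the failure of the conjecture
  simp only [ReflectionConjecture, not_forall, not_exists, not_and, not_not] at hQ
  obtain ⟨S, hS, hSall⟩ := hQ
  obtain ⟨fP, hfP, hfPc⟩ := hP.poly
  have hth : ∀ (a : T) (φ : Fm), φ ∈ theory (pc a) (pk a) ↔
      φ ∈ S12 ∨ Acc k μ e nx nz a φ.enc := by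
    intro a φ
    have h4 := (hpcl a).2 φ.enc
    have h5 := hf₀A (T.node a φ.enc)
    simp only [T.left_node, T.right_node] at h5
    rw [h5, ← h4]
    rfl
  have i := PolyTime.id
  have hSS : S12 ⊆ S := by
    obtain ⟨-, f', -, hf'⟩ := hS
    exact fun φ hφ => (hf' φ).2 (Or.inl hφ)
  -- the condition
  let C : T → Prop := fun Z => osim Z.left ≠ T.leaf ∧
    IsProof S (decProof Z.right) (rfn (P (pc Z.left.left) (pk Z.left.left)) μ
      (M (T.node Z.left.left Z.left.right)))
  have hC : PolyDec C := by
    refine (PolyDec.ne_leaf (osim_polyTime hsim i.left)).and ?_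
    have hr := rfn_polyTime μ (hfP.comp (hpq.comp i.left.left))
      (hM.comp (i.left.left.node i.left.right))
    refine ((isProof_polyDec (DecTh.of_inClassT hS)).comp
      (i.right.node hr)).congr fun Z => ?_
    simp only [T.left_node, T.right_node, decFm_enc, hfPc]
  classical
  let h : T → T := fun Z => if C Z then (osim Z.left).right else l0
  have hh : PolyTime h := by
    refine (PolyTime.ifP hC (osim_polyTime hsim i.left).right (PolyTime.const l0)).congr
      fun Z => ?_
    by_cases hZ : C Z
    · rw [if_pos hZ]
      exact (if_pos hZ).symm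
    · rw [if_neg hZ]
      exact (if_neg hZ).symm
  -- the range of `h` is contained in `A`
  have hrange : ∀ Z, h Z ∈ A := by
    intro Z
    by_cases hCZ : C Z
    · have hhZ : h Z = (osim Z.left).right := if_pos hCZ
      rw [hhZ]
      obtain ⟨hne, hpr⟩ := hCZ
      rw [hfA]
      intro y hy
      set s := Z.left with hs
      set a := s.left with ha
      set v := T.node s.right y with hv
      -- the run only depends on the components
      have hos : osim (T.node a v.left) = osim s := by
        simp only [osim, hv, T.left_node, T.right_node, ha]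
      have hbd : bnd k (T.node a v.left) = bnd k s := by rw [bnd, bnd, hos]
      have hok : okq k a v := by
        refine ⟨by rw [hos]; exact hne, ?_⟩
        rw [hbd, hv, T.right_node]
        exact hy
      have hax : padF v (psi k μ e nx nz a v) ∈ theory (pc a) (pk a) := by
        rw [hth]
        right
        refine ⟨?_, ?_⟩
        · rw [unfalsum_padF]
        · rw [unfalsum_padF]
          exact hok
      have hpf := unpad_isProof hax
      have hsat := (hP.correct (pc a) (pk a) e (nx (Xof k a v)) (nz (Xof k a v))
        (encProof (unpad v (psi k μ e nx nz a v))).num).2 ⟨_, rfl, hpf⟩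
      have hlen : nn k μ e nx nz a v ≤ M (T.node a s.right) := by
        refine hMb a s.right y ?_
        have h4 : bnd k (T.node a s.right) = bnd k s := hbd
        rw [h4]
        exact hy
      have hμt := rfn_sound hSS hS.1 ((Fm.bdd_of _).1 (hP.delta _ _).1)
        ((Fm.bdd_of μ).1 hμ.1) ⟨_, hpr⟩ (e := e) (x := nx (Xof k a v)) (z := nz (Xof k a v))
        (u := (encProof (unpad v (psi k μ e nx nz a v))).num)
        (by simp only [nn] at hlen; omega) (by simp only [nn] at hlen; omega)
        (by simp only [nn] at hlen; omega)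
        (by rw [T.num_size]; simp only [nn] at hlen; omega) hsat
      rw [Tf.vec_congr hμ.2.1, hX] at hμt
      obtain ⟨z, hz1, hz2⟩ := hμt
      simp only [Xof, T.left_node, T.right_node, T.len_unary] at hz1 hz2
      rw [hbd] at hz1
      rw [hos] at hz2
      exact ⟨z, hz1, hz2⟩
    · have hhZ : h Z = l0 := if_neg hCZ
      rw [hhZ]
      exact hl0
  -- the simulation of functions with values in `A`
  have hsimul : ∀ g : T → T, PolyTime g → (∀ w, g w ∈ A) →
      ∃ t : T → T, PolyTime t ∧ ∀ w, h (t w) = g w := by
    intro g hg hgA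
    obtain ⟨a, ka, ha⟩ := hg
    have hclk : PolyTime (fun w : T => T.unary ((w.size + 2) ^ ka)) :=
      ((PolyNat.size i).add (PolyNat.const 2)).pow ka
    -- the outputs of runs
    have hout : ∀ u : T, osim (T.node a.enc u) ≠ T.leaf →
        osim (T.node a.enc u) = T.node T.leaf (g u.left) := by
      intro u hu
      obtain ⟨t, ht, -⟩ := ha u.left
      rcases hs3 a u.left _ u.right t ht with h4 | h4
      · exact absurd h4 hu
      · exact h4
    have hclass : InClassT (theory (pc a.enc) (pk a.enc)) := by
      refine ⟨⟨ℕ, stdN, ?_⟩, fun x => f₀ (T.node a.enc x),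
        hf₀.comp ((PolyTime.const _).node i), fun φ => ?_⟩
      · intro φ hφ v
        rcases (hth _ φ).1 hφ with h4 | ⟨h4, h5, h6⟩
        · exact stdN_models φ h4 v
        · have h7 := Fm.enc_inj.1 h4
          rw [← h7]
          intro _
          refine Tf.inst_true hμ.2.1 ?_ v
          rw [hX]
          set w := unfalsum φ.enc with hw
          have h8 := hout w.left h5
          have h9 := (hfA (g w.left.left)).1 (hgA _) w.right (by
            rw [bnd, h8, T.right_node] at h6
            exact h6)
          obtain ⟨z, hz1, hz2⟩ := h9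
          refine ⟨z, ?_, ?_⟩
          · simp only [Xof, T.right_node, T.len_unary, bnd]
            rw [h8, T.right_node]
            exact hz1
          · simp only [Xof, T.left_node, T.right_node]
            rw [h8, T.right_node]
            exact hz2
      · rw [hth, ← hf₀A]
        simp only [T.left_node, T.right_node]
    obtain ⟨fπ, hfπ, hfπs⟩ := hSall (pc a.enc) (pk a.enc) (hpcl _).1 hclass
    let sv : T → T := fun w => T.node a.enc (T.node w (T.unary ((w.size + 2) ^ ka)))
    have hsv : PolyTime sv := (PolyTime.const _).node (i.node hclk)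
    refine ⟨fun w => T.node (sv w) (fπ (T.unary (M (sv w)))),
      hsv.node (hfπ.comp (hM.comp hsv)), ?_⟩
    intro w
    obtain ⟨t, ht, htb⟩ := ha w
    have h4 : osim (sv w) = T.node T.leaf (g w) := hs2 a w _ t _ ht htb
    have hCw : C (T.node (sv w) (fπ (T.unary (M (sv w))))) := by
      refine ⟨?_, ?_⟩
      · rw [T.left_node, h4]
        exact fun h5 => by cases h5
      · obtain ⟨π, hπ, hπp⟩ := hfπs (M (sv w))
        simp only [T.left_node, T.right_node]
        rw [hπ, decProof_enc]
        exact hπp
    have h5 : h (T.node (sv w) (fπ (T.unary (M (sv w))))) = (osim (sv w)).right := by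
      have h6 : h (T.node (sv w) (fπ (T.unary (M (sv w))))) =
        (osim (T.node (sv w) (fπ (T.unary (M (sv w))))).left).right := if_pos hCw
      rw [h6, T.left_node]
    rw [h5, h4, T.right_node]
  refine ⟨h, ⟨hh, ?_⟩, ?_⟩
  · apply Set.Subset.antisymm
    · rintro _ ⟨Z, rfl⟩
      exact hrange Z
    · intro l hl
      obtain ⟨t, -, ht⟩ := hsimul (fun _ => l) (PolyTime.const l) (fun _ => hl)
      exact ⟨t T.leaf, ht T.leaf⟩
  · rintro g ⟨hg, hgr⟩
    obtain ⟨t, ht, hth'⟩ := hsimul g hg (fun w => hgr ▸ Set.mem_range_self w)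
    exact ⟨t, ht, hth'⟩

end Pool.Agent.PO
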