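import Pool.Agent.PO.Stmts

/-!
# Statements for the characterisation by sets in the second level of the hierarchy

`Q1 ↔ some (super-tally) set in Π^p_2 has no p-optimal proof system`.
-/

namespace Pool.Agent.PO

open Pool.Agent.H19

/-- If the conjecture fails, all sets in `Π^p_2` have p-optimal proof systems. -/
def PI2_stmt : Prop :=
  ∀ (μ : Fm) (P : Code → ℕ → Fm), IsUniversal μ → IsFormalisation μ P →
  ¬ ReflectionConjecture μ P → ∀ A : Set T, A.Nonempty → InPi2 A → HasPOptimal A

end Pool.Agent.PO
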