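import Pool.Agent.PO.Fwd
import Pool.Agent.PO.Stmts2

/-! # The conjecture implies that a super-tally set in `Π^p_2` has no p-optimal proof system -/

namespace Pool.Agent.PO

open Pool.Agent.H19

theorem AA_nonempty {μ : Fm} (hμ : μ.isSigma = true) : (AA μ).Nonempty := by
  obtain ⟨c, κ, hc, hT⟩ := exists_inClassT
  exact ⟨_, mem_AA hμ hc hT.1 (b := 0) (m := 2 ^ tc (T.node c.enc (T.unary κ)) - 1) (by
    have : 1 ≤ 2 ^ tc (T.node c.enc (T.unary κ)) := Nat.one_le_two_pow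
    omega)⟩

theorem AA_not_pOptimal {μ : Fm} (hμ : IsUniversal μ) {P : Code → ℕ → Fm}
    (hP : IsFormalisation μ P) (hQ : ReflectionConjecture μ P) : ¬ HasPOptimal (AA μ) := by
  rintro ⟨h, ⟨hh, hrange⟩, hopt⟩
  have i := PolyTime.id
  have hB : ∀ p, h p ∈ AA μ := fun p => hrange ▸ Set.mem_range_self p
  obtain ⟨S, hS, hall⟩ := collapse hμ.1 hμ.2.1 hP (D := fun z => h z.right = z.left)
    (PolyDec.eq (hh.comp i.right) i.left) (fun x v hx => by
      simp only [T.left_node, T.right_node] at hx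
      rw [← hx]; exact hB v)
  obtain ⟨c, κ, hc, hT, hno⟩ := hQ S hS
  obtain ⟨N, g, hN, hg, hNg⟩ := hall c κ hc hT.1
  have hG : ProofSystem (AA μ)
      (fun z => tif z.left (h z.right) (T.unary (N z.right.len))) := by
    refine ⟨i.left.tif (hh.comp i.right) (hN.comp i.right).unary, ?_⟩
    ext x
    constructor
    · rintro ⟨z, rfl⟩
      rcases hz : z.left with _ | ⟨l, r⟩
      · simp only [hz, tif_leaf]; exact hB _
      · simp only [hz, tif_node]; exact (hNg _).1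
    · intro hx
      rw [← hrange] at hx
      obtain ⟨p, rfl⟩ := hx
      exact ⟨T.node T.leaf p, by simp⟩
  obtain ⟨t, ht, htG⟩ := hopt _ hG
  refine hno ⟨fun x => g (T.node x (t (T.node (T.node T.leaf T.leaf) x))),
    hg.comp (i.node (ht.comp ((PolyTime.const _).node i))), fun n => ?_⟩
  refine (hNg n).2 _ ?_
  simp only [T.left_node, T.right_node]
  rw [htG]
  simp

/-- The characterisation by `Π^p_2`. -/
theorem pi2_main_of (h : PI2_stmt) (μ : Fm) (P : Code → ℕ → Fm) (hμ : IsUniversal μ)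
    (hP : IsFormalisation μ P) :
    List.TFAE [ReflectionConjecture μ P,
      ∃ A : Set T, A.Nonempty ∧ InPi2 A ∧ ¬ HasPOptimal A,
      ∃ A : Set T, A.Nonempty ∧ InPi2 A ∧ SuperTally A ∧ ¬ HasPOptimal A] := by
  tfae_have 1 → 3 := fun hQ =>
    ⟨AA μ, AA_nonempty hμ.1, AA_inPi2 hμ.1, AA_superTally μ, AA_not_pOptimal hμ hP hQ⟩
  tfae_have 3 → 2 := fun ⟨A, h1, h2, _, h3⟩ => ⟨A, h1, h2, h3⟩
  tfae_have 2 → 1 := by
    rintro ⟨A, h1, h2, h3⟩
    by_contra hc
    exact h3 (h μ P hμ hP hc A h1 h2)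
  tfae_finish

end Pool.Agent.PO
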