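import Pool.Agent.PO.Stmts

/-!
# NP relations as instances of the universal formula
-/

namespace Pool.Agent.PO

open Pool.Agent.H19

namespace Univ

theorem val_polyNat {s : T → ℕ} (hs : PolyNat s) : ∀ p : Tm, p.isPoly →
    PolyNat (fun X => p.val stdN (fun _ => s X)) := by
  intro p
  induction p with
  | var i => intro _; exact hs
  | zero => intro _; exact PolyNat.const 0
  | succ t ih => intro h; exact (ih h).add (PolyNat.const 1)
  | half t ih => intro h; simp [Tm.isPoly] at h
  | len t ih => intro h; simp [Tm.isPoly] at h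
  | add s t ih1 ih2 => intro h; exact (ih1 h.1).add (ih2 h.2)
  | mul s t ih1 ih2 => intro h; exact (ih1 h.1).mul (ih2 h.2)
  | smash s t ih1 ih2 => intro h; simp [Tm.isPoly] at h

theorem val_congr : ∀ (q : Tm), q.isPoly → ∀ v w : ℕ → ℕ, v 0 = w 0 →
    q.val stdN v = q.val stdN w := by
  intro q
  induction q with
  | var i => intro hq v w hvw; simp only [Tm.isPoly] at hq; subst hq; exact hvw
  | zero => intro _ _ _ _; rfl
  | succ t ih => intro hq v w hvw; simp only [Tm.val]; rw [ih hq v w hvw]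
  | half t ih => intro hq; simp [Tm.isPoly] at hq
  | len t ih => intro hq; simp [Tm.isPoly] at hq
  | add s t ih1 ih2 =>
    intro hq v w hvw; simp only [Tm.val]; rw [ih1 hq.1 v w hvw, ih2 hq.2 v w hvw]
  | mul s t ih1 ih2 =>
    intro hq v w hvw; simp only [Tm.val]; rw [ih1 hq.1 v w hvw, ih2 hq.2 v w hvw]
  | smash s t ih1 ih2 => intro hq; simp [Tm.isPoly] at hq

end Univ

theorem UNIV_thm (h : DEF_stmt) : UNIV_stmt := by
  intro μ P hμ hP F hF hsize
  obtain ⟨α, nx, hα, hα1, hnx, hsat⟩ := h μ P hμ hP F hF hsize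
  obtain ⟨e, p, hpoly, π, hπ⟩ := hμ.2.2 α hα hα1
  refine ⟨e, nx, fun X => 2 ^ (p.val stdN (fun _ => (nx X).size)), hnx,
    PolyN.pow2 (Univ.val_polyNat hnx.size p hpoly), fun X => ?_⟩
  set z := 2 ^ (p.val stdN (fun _ => (nx X).size)) with hz
  have h1 := hπ.sound stdN_models (scons (nx X) (scons z fun _ => 0))
  simp only [Fm.sat, Fm.sat_iff, Fm.sat_inst, Tm.numeral_val] at h1
  have h2 : (p.inst 0 (Tm.len (Tm.var 0))).val stdN (scons (nx X) (scons z fun _ => 0)) =
      p.val stdN (fun _ => (nx X).size) := by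
    rw [Tm.val_inst]
    apply Univ.val_congr p hpoly
    simp [Tm.val, scons, stdN]
  have h3 := h1 (by
    rw [h2]
    simp only [Tm.val, scons, stdN, hz, Nat.size_pow]
    omega)
  rw [← hsat X (scons z fun _ => 0)]
  exact h3.symm

end Pool.Agent.PO
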