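import Pool.Agent.PO.XPDefs
import Pool.Agent.PO.Stmts
import Pool.Agent.Lib_helper19.Classes
import Pool.Agent.Lib_helper19.Reflection
import Pool.Agent.Lib_helper19.Universal

/-!
# If totality up to size `n` is decidable in time `n ^ f(c)`, sets in `Π^p_2` have p-optimal
proof systems
-/

namespace Pool.Agent.PO

open Pool.Agent.H19

section
variable (f₀ : T → T) (k : ℕ)

/-- The output of the clocked run described by `y = node q (node x b)`. -/
def xOut (y : T) : T := simulF (T.node y.left (T.node y.right.left y.right.right))

/-- The run of the program `z.left` described in the input `z.right = node u s`,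
`u = node (node x b) (node y p)`. -/
def xRun (z : T) : T := xOut (T.node z.left z.right.left.left)

/-- The bound on the sizes. -/
def xM (o : T) : ℕ := (o.right.size + 2) ^ k

/-- The program with the parameter `z.left` accepts `z.right = node u s`. -/
def XAcc (z : T) : Prop :=
  xRun z = T.leaf ∨ xM k (xRun z) < z.right.left.right.left.size ∨
    z.right.left.right.right.size < xM k (xRun z) ∨
    (z.right.right.size ≤ xM k (xRun z) ∧
      f₀ (T.node (xRun z).right (T.node z.right.left.right.left z.right.right)) ≠ T.leaf)

/-- The bound on the size of the inputs. -/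
def xN (y : T) : ℕ := y.right.left.size + y.right.right.size + 3 * xM k (xOut y) + 4

end

theorem xOut_polyTime (hs : PolyTime simulF) : PolyTime xOut := by
  have i := PolyTime.id
  exact hs.comp (i.left.node (i.right.left.node i.right.right))

theorem xRun_polyTime (hs : PolyTime simulF) : PolyTime xRun := by
  have i := PolyTime.id
  exact (xOut_polyTime hs).comp (i.left.node i.right.left.left)

theorem xM_polyNat (k : ℕ) {f : T → T} (hf : PolyTime f) : PolyNat (fun x => xM k (f x)) :=
  ((PolyNat.size hf.right).add (PolyNat.const 2)).pow k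

theorem PolyDec.lt {f g : T → ℕ} (hf : PolyNat f) (hg : PolyNat g) :
    PolyDec (fun x => f x < g x) :=
  (PolyDec.le (hf.add (PolyNat.const 1)) hg).congr fun _ => Nat.succ_le_iff

theorem xAcc_polyDec (hs : PolyTime simulF) {f₀ : T → T} (hf₀ : PolyTime f₀) (k : ℕ) :
    PolyDec (XAcc f₀ k) := by
  have i := PolyTime.id
  have hr := xRun_polyTime hs
  have hM := xM_polyNat k hr
  exact (PolyDec.eq_leaf hr).or ((PolyDec.lt hM (PolyNat.size i.right.left.right.left)).or
    ((PolyDec.lt (PolyNat.size i.right.left.right.right) hM).or
      ((PolyDec.le (PolyNat.size i.right.right) hM).and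
        (PolyDec.ne_leaf (hf₀.comp (hr.right.node (i.right.left.right.left.node
          i.right.right)))))))

theorem xN_polyNat (hs : PolyTime simulF) (k : ℕ) : PolyNat (xN k) := by
  have i := PolyTime.id
  exact (((PolyNat.size i.right.left).add (PolyNat.size i.right.right)).add
    ((PolyNat.const 3).mul (xM_polyNat k (xOut_polyTime hs)))).add (PolyNat.const 4)

theorem xp_to_opt (h1 : SIMF_stmt) (h2 : PARAM_stmt) (hX : TotalityInXP) :
    ∀ A : Set T, A.Nonempty → InPi2 A → HasPOptimal A := by
  classical
  intro A hA hpi
  obtain ⟨hs, hs2, hs3⟩ := h1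
  have i := PolyTime.id
  obtain ⟨d, hd⟩ := hX
  obtain ⟨l₀, hl₀⟩ := hA
  obtain ⟨f₀, k, hf₀, hA₀⟩ := hpi
  -- the parametrised programs
  obtain ⟨fA, hfA, hfA2⟩ := xAcc_polyDec hs hf₀ k
  obtain ⟨pc, pk, hpp, hq⟩ := h2 fA hfA
  have hacc : ∀ q v, (∃ (y : T) (t : ℕ), Eval (pc q) v y t ∧ y ≠ T.leaf) ↔
      XAcc f₀ k (T.node q v) := by
    intro q v
    rw [hfA2, ← (hq q).2 v]
    constructor
    · rintro ⟨y, t, hy, hne⟩
      obtain ⟨y', t', hy', hb⟩ := (hq q).1 v
      obtain ⟨rfl, rfl⟩ := hy.det hy'
      exact ⟨_, _, hy, hb, hne⟩
    · rintro ⟨y, t, hy, _, hne⟩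
      exact ⟨y, t, hy, hne⟩
  have hhalt : ∀ q, ∃ κ, HaltsWithin (pc q) κ := fun q => ⟨_, (hq q).1⟩
  -- the run of the algorithm
  let alg : T → T := fun z => simulF (T.node d.enc (T.node (T.node (pc z.left.left).enc
    (T.unary z.right.left.len)) z.right.right))
  have halg : PolyTime alg :=
    hs.comp ((PolyTime.const _).node ((((hpp.comp i.left.left).left).node
      (PolyNat.len i.right.left).unary).node i.right.right))
  let cond : T → Prop := fun z => xOut z.left ≠ T.leaf ∧ xN k z.left ≤ z.right.left.len ∧
    (alg z).right ≠ T.leaf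
  have hcond : PolyDec cond :=
    (PolyDec.ne_leaf ((xOut_polyTime hs).comp i.left)).and
      ((PolyDec.le ((xN_polyNat hs k).comp i.left) (PolyNat.len i.right.left)).and
        (PolyDec.ne_leaf halg.right))
  let h : T → T := fun z => if cond z then (xOut z.left).right else l₀
  have hh : PolyTime h := by
    refine (PolyTime.ifP hcond ((xOut_polyTime hs).comp i.left).right
      (PolyTime.const l₀)).congr fun z => ?_
    by_cases hc : cond z <;> simp [h, hc]
  -- soundness
  have hsound : ∀ z, h z ∈ A := by
    intro z
    by_cases hc : cond z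
    · have hz : h z = (xOut z.left).right := by simp only [h, hc, if_true]
      rw [hz]
      obtain ⟨hc1, hc2, hc3⟩ := hc
      set o := xOut z.left with ho
      have htot : TotalUpTo (pc z.left.left) z.right.left.len := by
        obtain ⟨k', hk'⟩ := hd (pc z.left.left) (hhalt _)
        obtain ⟨y, t, hy, _, hiff⟩ := hk' z.right.left.len
        rcases hs3 d _ y z.right.right t hy with h5 | h5
        · exact absurd (by simp only [alg, h5, T.right_leaf]) hc3
        · apply hiff.1
          have : (alg z).right = y := by simp only [alg, h5, T.right_node]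
          rwa [this] at hc3
      refine (hA₀ _).2 fun y hy => ?_
      let u : T := T.node (T.node z.left.right.left z.left.right.right)
        (T.node y (T.unary (xM k o)))
      have hus : u.size ≤ z.right.left.len := by
        have h6 : u.size = z.left.right.left.size + z.left.right.right.size + 1 +
            (y.size + (2 * xM k o + 1) + 1) + 1 := by
          simp only [u, T.size, T.size_unary]
        have h7 : y.size ≤ xM k o := hy
        have h8 : xN k z.left = z.left.right.left.size + z.left.right.right.size +
            3 * xM k o + 4 := rfl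
        omega
      obtain ⟨s, _, hs5⟩ := htot u hus
      have hx := (hacc _ _).1 hs5
      have hrun : xRun (T.node z.left.left (T.node u s)) = o := rfl
      rcases hx with h6 | h6 | h6 | ⟨h6, h7⟩
      · rw [hrun] at h6
        exact absurd h6 hc1
      · rw [hrun] at h6
        simp only [T.right_node, T.left_node, u] at h6
        exact absurd hy (by rw [not_le]; exact h6)
      · rw [hrun] at h6
        simp only [T.right_node, T.left_node, u, T.size_unary] at h6
        omega
      · rw [hrun] at h6 h7
        exact ⟨s, h6, h7⟩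
    · have hz : h z = l₀ := by simp only [h, hc, if_false]
      rw [hz]; exact hl₀
  -- simulation
  have hsim : ∀ g : T → T, PolyTime g → (∀ w, g w ∈ A) → PSimulates h g := by
    intro g hg hgA
    obtain ⟨a, j, ha⟩ := hg
    have htot : ∀ n, TotalUpTo (pc a.enc) n := by
      intro n u _
      have hrun : ∀ s, xRun (T.node a.enc (T.node u s)) = T.leaf ∨
          xRun (T.node a.enc (T.node u s)) = T.node T.leaf (g u.left.left) := by
        intro s
        obtain ⟨t, ht, _⟩ := ha u.left.left
        exact hs3 a _ _ u.left.right t ht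
      by_cases h0 : ∃ s : T, s.size ≤ u.size ∧ XAcc f₀ k (T.node a.enc (T.node u s))
      · obtain ⟨s, hs5, hs6⟩ := h0
        exact ⟨s, hs5, (hacc _ _).2 hs6⟩
      · exfalso
        have hleaf : ¬ XAcc f₀ k (T.node a.enc (T.node u T.leaf)) := fun hc =>
          h0 ⟨T.leaf, by have := T.size_pos u; simp only [T.size]; omega, hc⟩
        unfold XAcc at hleaf
        push Not at hleaf
        obtain ⟨h3, h4, h5, _⟩ := hleaf
        have ho := (hrun T.leaf).resolve_left h3
        rw [ho] at h4 h5
        simp only [T.right_node, T.left_node, xM] at h4 h5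
        obtain ⟨s, hs7, hs8⟩ := (hA₀ _).1 (hgA u.left.left) u.right.left h4
        refine h0 ⟨s, ?_, Or.inr (Or.inr (Or.inr ?_))⟩
        · have h6 := T.size_right_le u.right
          have h7 := T.size_right_le u
          omega
        · have ho2 : xRun (T.node a.enc (T.node u s)) = T.node T.leaf (g u.left.left) := ho
          rw [ho2]
          exact ⟨hs7, hs8⟩
    obtain ⟨k', hk'⟩ := hd (pc a.enc) (hhalt _)
    let y : T → T := fun w => T.node a.enc (T.node w (T.unary ((w.size + 2) ^ j)))
    have hy : PolyTime y := (PolyTime.const _).node (i.node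
      (((PolyNat.size i).add (PolyNat.const 2)).pow j).unary)
    have hNy : PolyNat (fun w => xN k (y w)) := (xN_polyNat hs k).comp hy
    refine ⟨fun w => T.node (y w) (T.node (T.unary (xN k (y w)))
      (T.unary ((xN k (y w) + 2) ^ k'))),
      hy.node (hNy.unary.node ((hNy.add (PolyNat.const 2)).pow k').unary), fun w => ?_⟩
    obtain ⟨t, ht, htb⟩ := ha w
    have ho : xOut (y w) = T.node T.leaf (g w) := hs2 a w (g w) t _ ht htb
    obtain ⟨yd, td, hd1, hd2, hd3⟩ := hk' (xN k (y w))
    have hc : cond (T.node (y w) (T.node (T.unary (xN k (y w)))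
      (T.unary ((xN k (y w) + 2) ^ k')))) := by
      refine ⟨?_, ?_, ?_⟩
      · rw [T.left_node, ho]; simp
      · simp only [T.left_node, T.right_node, T.len_unary]
        exact le_rfl
      · have h6 : alg (T.node (y w) (T.node (T.unary (xN k (y w)))
            (T.unary ((xN k (y w) + 2) ^ k')))) = T.node T.leaf yd := by
          simp only [alg, T.left_node, T.right_node, T.len_unary]
          exact hs2 d _ yd td _ hd1 hd2
        rw [h6, T.right_node]
        exact hd3.2 (htot _)
    simp only [h, hc, if_true, T.left_node, ho, T.right_node]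
  refine ⟨h, ⟨hh, ?_⟩, fun g hg => hsim g hg.1 fun w => hg.2 ▸ Set.mem_range_self w⟩
  ext l
  constructor
  · rintro ⟨z, rfl⟩
    exact hsound z
  · intro hl
    obtain ⟨t, _, ht⟩ := hsim (fun _ => l) (PolyTime.const l) fun _ => hl
    exact ⟨t T.leaf, ht T.leaf⟩

end Pool.Agent.PO
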