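import Pool.Agent.PO.Defs

/-!
# Totality of search problems up to a given size, as a parametrised problem
-/

namespace Pool.Agent.PO

open Pool.Agent.H19

/-- Up to size `n` the search problem given by the program `c` is total: every `x` of size at most
`n` has a solution `z`, of size at most that of `x`, that is accepted by `c`. -/
def TotalUpTo (c : Code) (n : ℕ) : Prop :=
  ∀ x : T, x.size ≤ n → ∃ z : T, z.size ≤ x.size ∧
    ∃ (y : T) (t : ℕ), Eval c (T.node x z) y t ∧ y ≠ T.leaf

/-- Some algorithm `d` decides, given a polynomial-time program `c` and `n` in unary, whether the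
search problem of `c` is total up to size `n`, in time `(n + 2) ^ k` where `k` depends on `c`
only. (Nothing is required if `c` does not halt within polynomial time.) -/
def TotalityInXP : Prop :=
  ∃ d : Code, ∀ c : Code, (∃ κ, HaltsWithin c κ) → ∃ k : ℕ, ∀ n : ℕ, ∃ (y : T) (t : ℕ),
    Eval d (T.node c.enc (T.unary n)) y t ∧ t ≤ (n + 2) ^ k ∧ (y ≠ T.leaf ↔ TotalUpTo c n)

end Pool.Agent.PO
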